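import Pool.Agent.Work.MP_e99821_lc.ME.Main
import Pool.Agent.Work.MP_e99821_lc.PartB

/-!
# The theorems on the stick number and the club principle
-/

namespace Pool.Agent.Work.MP_e99821_lc.ME

open Ordinal Cardinal

theorem aleph0_le_of_stick {κ : Cardinal.{0}} (h : StickAtMost κ) : ℵ₀ ≤ κ := by
  classical
  obtain ⟨ι, A, hκ, hA, hst⟩ := h
  by_contra hcon
  push Not at hcon
  have hι : Cardinal.mk ι < ℵ₀ := hκ.trans_lt hcon
  have hfin : Finite ι := Cardinal.lt_aleph0_iff_finite.1 hι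
  choose p hp using fun i => (hA i).nonempty
  have h1 : ¬ (Set.Iio (ω_ 1 : Ordinal.{0}) \ Set.range p).Countable := by
    intro hc
    have h2 : (Set.Iio (ω_ 1 : Ordinal.{0})).Countable := by
      refine (hc.union (Set.finite_range p).countable).mono ?_
      intro x hx
      by_cases hx' : x ∈ Set.range p
      · exact Or.inr hx'
      · exact Or.inl ⟨hx, hx'⟩
    apply Om_unc
    exact ofOm_countable.1 (h2.mono (ofOm_subset _))
  obtain ⟨i, hi⟩ := hst _ Set.sdiff_subset h1
  exact (hi (hp i)).2 ⟨i, rfl⟩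

theorem stick_trichotomy {κ : Cardinal.{0}} (h : StickAtMost κ) :
    SouslinTreeExists ∨ DominatingAtMost κ ∨ CovClosedNullAtMost κ := by
  classical
  have hκ0 := aleph0_le_of_stick h
  obtain ⟨ι, A, hκ, hA, hst⟩ := h
  set B : ι → Set Om := fun i => if A i ⊆ Set.Iio (ω_ 1) then toOm (A i) else Set.univ with hB
  have h1 : ∀ i, (B i).Infinite := by
    intro i
    by_cases hi : A i ⊆ Set.Iio (ω_ 1)
    · simp only [hB, if_pos hi]
      exact toOm_infinite hi (hA i)
    · simp only [hB, if_neg hi]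
      intro hfin
      exact Om_unc hfin.countable
  have h2 : ∀ X : Set Om, ¬ X.Countable → ∃ i, B i ⊆ X := by
    intro X hX
    obtain ⟨i, hi⟩ := hst (ofOm X) (ofOm_subset X) (fun h => hX (ofOm_countable.1 h))
    refine ⟨i, ?_⟩
    simp only [hB, if_pos (hi.trans (ofOm_subset X))]
    exact toOm_subset hi
  exact main_ME eOm Om_countable Om_unc hκ0 hκ B h1 h2

/-- The theorem. -/
theorem final :
    (∀ κ : Cardinal.{0}, StickAtMost κ →
      SouslinTreeExists ∨ DominatingAtMost κ ∨ CovClosedNullAtMost κ) ∧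
    (ClubPrinciple → SouslinTreeExists ∨
      (CovMeagreAtMost ℵ₁ ∧
        ((DominatingAtMost ℵ₁ ∧ ¬ NonMeagreAtMost ℵ₁) ∨
          (¬ DominatingAtMost ℵ₁ ∧ CovClosedNullAtMost ℵ₁)))) := by
  refine ⟨fun κ h => stick_trichotomy h, fun h => ?_⟩
  rcases stick_dichotomy ℵ₁ (stick_of_club h) with h1 | h1
  · exact Or.inl h1
  by_cases hs : SouslinTreeExists
  · exact Or.inl hs
  right
  refine ⟨h1, ?_⟩
  by_cases hD : DominatingAtMost ℵ₁
  · exact Or.inl ⟨hD, fun hM => hs (club_dichotomy h hM hD)⟩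
  · refine Or.inr ⟨hD, ?_⟩
    rcases stick_trichotomy (stick_of_club h) with h2 | h2 | h2
    · exact absurd h2 hs
    · exact absurd h2 hD
    · exact h2

end Pool.Agent.Work.MP_e99821_lc.ME
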