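import Pool.Agent.Work.MP_e99821_lc.ME.Defs

/-!
# Module Col (M-L): one more column of the finite approximations

PROOF. If `Iio γ` is empty take `f n = ∅` (slack: `n₀ = k`). Otherwise let `g : ℕ → Ω` have range
`Iio γ` (countable and nonempty) and let `β_k` be the maximum of `g 0, ..., g k`: `β_k < γ`, weakly
increasing, and every `α < γ` is `≤ β_k` for some `k`.
There are `n_0 < n_1 < ...` with
(i) for `n ≥ n_k`: `|F n β_k| + (k + 1) ≤ n` (slack of the column `β_k`),
(ii) for `n ≥ n_{k+1}`: `β_k = β_{k+1}` or `β_k ∈ F n β_{k+1}` (union and mono of column `β_{k+1}`)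
(if `N_k` is a bound good for (i) and for (ii) with `k` in place of `k + 1`, put
`n_k = k + ∑_{j ≤ k} N_j`).
For `n ≥ n_0` let `k(n)` be the largest `k` with `n_k ≤ n` (`Nat.findGreatest _ n`; `n_k ≥ k`), and
put `f n = ∅` for `n < n_0`, `f n = F n β_k ∪ {β_k}` with `k = k(n)` for `n ≥ n_0`.
(*) If `n ≥ n_0` and `j ≤ k = k(n)` then `β_j = β_k` or `β_j ∈ F n β_k`. Induction on `k - j`, more
precisely for all `j ≤ k` with `n_k ≤ n`: for `j < k` we have `n ≥ n_k ≥ n_{j+1}`, so `β_j = β_{j+1}`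
or `β_j ∈ F n β_{j+1}`, and `β_{j+1} = β_k` or `β_{j+1} ∈ F n β_k`; in the last case coherence of the
column `β_k` at `α = β_{j+1}` gives `β_j ∈ F n β_k`.
(**) Hence `F n β_j ∪ {β_j} ⊆ f n` for `j ≤ k(n)`, `n ≥ n_0` (coherence once more).
mono: `n ≤ m`, `j = k(n) ≤ k(m)`: `f n = F n β_j ∪ {β_j} ⊆ F m β_j ∪ {β_j} ⊆ f m` by (**).
union: `α ≤ β_j`; if `α = β_j` take `n = n_j`, otherwise `α ∈ F n' β_j` and `n = max n' n_j`; (**).
coh: let `β = β_{k(n)}`. For `α = β`: `ξ ∈ F n β ↔ (ξ ∈ F n β ∨ ξ = β) ∧ ξ < β`. For `α ∈ F n β`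
(so `α < β`): `ξ ∈ F n α ↔ ξ ∈ F n β ∧ ξ < α ↔ (ξ ∈ F n β ∨ ξ = β) ∧ ξ < α`.
slack: for `n ≥ n_k`, `k(n) ≥ k`, so `|f n| + k ≤ |F n β_{k(n)}| + 1 + k(n) ≤ n` by (i).
card: `n < n_0`: clear; otherwise `|f n| ≤ |F n β_k| + 1 ≤ n` by (i). lt: clear.
-/

namespace Pool.Agent.Work.MP_e99821_lc.ME

variable {Ω : Type*} [LinearOrder Ω]

theorem exists_appCol (F : ℕ → Ω → Finset Ω) (γ : Ω) (hc : (Set.Iio γ).Countable)
    (hF : ∀ β < γ, AppCol F β (fun n => F n β)) : ∃ f, AppCol F γ f := by
  classical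
  rcases (Set.Iio γ).eq_empty_or_nonempty with hemp | hne
  · have hno : ∀ α, ¬ α < γ := by
      intro α h
      have h' : α ∈ Set.Iio γ := h
      rw [hemp] at h'
      exact h'
    exact ⟨fun _ => ∅,
      { lt := by simp
        mono := by simp
        union := fun α h => absurd h (hno α)
        coh := by simp
        slack := fun k => ⟨k, fun n hn => by simpa using hn⟩
        card := by simp }⟩
  obtain ⟨g, hg⟩ := hc.exists_eq_range hne
  let β : ℕ → Ω := fun k => (Finset.range (k + 1)).sup' ⟨0, by simp⟩ g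
  have hβγ : ∀ k, β k < γ := by
    intro k
    refine (Finset.sup'_lt_iff _).2 fun i _ => ?_
    have h : g i ∈ Set.Iio γ := by
      rw [hg]
      exact ⟨i, rfl⟩
    exact h
  have hβmono : ∀ k, β k ≤ β (k + 1) := by
    intro k
    exact Finset.sup'_mono _ (Finset.range_mono (Nat.le_succ _)) _
  have hβcof : ∀ α < γ, ∃ k, α ≤ β k := by
    intro α hα
    have h : α ∈ Set.range g := by
      rw [← hg]
      exact hα
    obtain ⟨k, rfl⟩ := h
    exact ⟨k, Finset.le_sup' g (by simp)⟩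
  have hthr : ∀ k, ∃ N, (∀ n ≥ N, (F n (β k)).card + (k + 1) ≤ n) ∧
      (∀ n ≥ N, ∀ j, j + 1 = k → (β j = β k ∨ β j ∈ F n (β k))) := by
    intro k
    obtain ⟨N1, h1⟩ := (hF _ (hβγ k)).slack (k + 1)
    have h2 : ∃ N2, ∀ n ≥ N2, ∀ j, j + 1 = k → (β j = β k ∨ β j ∈ F n (β k)) := by
      rcases k with _ | j0
      · exact ⟨0, fun n _ j hj => by omega⟩
      · rcases (hβmono j0).eq_or_lt with h | h
        · refine ⟨0, fun n _ j hj => ?_⟩
          obtain rfl : j = j0 := by omega
          exact Or.inl h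
        · obtain ⟨N2, h2⟩ := (hF _ (hβγ (j0 + 1))).union _ h
          refine ⟨N2, fun n hn j hj => ?_⟩
          obtain rfl : j = j0 := by omega
          exact Or.inr ((hF _ (hβγ (j + 1))).mono _ _ hn h2)
    obtain ⟨N2, h2⟩ := h2
    exact ⟨max N1 N2, fun n hn => h1 n ((le_max_left _ _).trans hn),
      fun n hn => h2 n ((le_max_right _ _).trans hn)⟩
  choose N hN1 hN2 using hthr
  let ν : ℕ → ℕ := fun k => k + ∑ j ∈ Finset.range (k + 1), N j
  have hν : StrictMono ν := by
    refine strictMono_nat_of_lt_succ fun k => ?_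
    simp only [ν]
    rw [Finset.sum_range_succ _ (k + 1)]
    omega
  have hνN : ∀ k, N k ≤ ν k := by
    intro k
    simp only [ν]
    rw [Finset.sum_range_succ]
    omega
  have hνk : ∀ k, k ≤ ν k := fun k => hν.le_apply
  let kk : ℕ → ℕ := fun n => Nat.findGreatest (fun k => ν k ≤ n) n
  have hkk : ∀ n, ν 0 ≤ n → ν (kk n) ≤ n := fun n hn =>
    Nat.findGreatest_spec (P := fun k => ν k ≤ n) (Nat.zero_le n) hn
  have hlekk : ∀ n k, ν k ≤ n → k ≤ kk n := fun n k hk =>
    Nat.le_findGreatest ((hνk k).trans hk) hk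
  have star : ∀ n k, ν k ≤ n → ∀ j ≤ k, β j = β k ∨ β j ∈ F n (β k) := by
    intro n k
    induction k with
    | zero =>
      intro _ j hj
      obtain rfl : j = 0 := by omega
      exact Or.inl rfl
    | succ k ih =>
      intro hk j hj
      rcases Nat.lt_or_ge j (k + 1) with hj' | hj'
      · have h1 := ih ((hν (Nat.lt_succ_self k)).le.trans hk) j (by omega)
        have h2 := hN2 (k + 1) n ((hνN (k + 1)).trans hk) k rfl
        rcases h2 with h2 | h2
        · rw [← h2]
          exact h1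
        · right
          rcases h1 with h1 | h1
          · rw [h1]
            exact h2
          · exact (((hF _ (hβγ (k + 1))).coh n (β k) h2 (β j)).1 h1).1
      · obtain rfl : j = k + 1 := by omega
        exact Or.inl rfl
  let f : ℕ → Finset Ω := fun n => if ν 0 ≤ n then insert (β (kk n)) (F n (β (kk n))) else ∅
  have hf0 : ∀ n, ¬ ν 0 ≤ n → f n = ∅ := fun n hn => if_neg hn
  have hf1 : ∀ n, ν 0 ≤ n → f n = insert (β (kk n)) (F n (β (kk n))) := fun n hn => if_pos hn
  have sstar : ∀ n j, ν 0 ≤ n → j ≤ kk n → insert (β j) (F n (β j)) ⊆ f n := by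
    intro n j hn hj
    rw [hf1 n hn]
    rcases star n (kk n) (hkk n hn) j hj with h | h
    · rw [h]
    · intro x hx
      rcases Finset.mem_insert.1 hx with rfl | hx
      · exact Finset.mem_insert_of_mem h
      · exact Finset.mem_insert_of_mem (((hF _ (hβγ (kk n))).coh n (β j) h x).1 hx).1
  have hcard : ∀ n, ν 0 ≤ n → (f n).card + kk n ≤ n := by
    intro n hn
    rw [hf1 n hn]
    have h1 := Finset.card_insert_le (β (kk n)) (F n (β (kk n)))
    have h2 := hN1 (kk n) n ((hνN _).trans (hkk n hn))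
    omega
  refine ⟨f, ?_, ?_, ?_, ?_, ?_, ?_⟩
  · intro n α hα
    by_cases hn : ν 0 ≤ n
    · rw [hf1 n hn] at hα
      rcases Finset.mem_insert.1 hα with rfl | h
      · exact hβγ _
      · exact ((hF _ (hβγ (kk n))).lt n α h).trans (hβγ _)
    · rw [hf0 n hn] at hα
      simp at hα
  · intro n m hnm
    by_cases hn : ν 0 ≤ n
    · have hm : ν 0 ≤ m := hn.trans hnm
      refine Finset.Subset.trans ?_ (sstar m (kk n) hm (hlekk m _ ((hkk n hn).trans hnm)))
      rw [hf1 n hn]
      exact Finset.insert_subset_insert _ ((hF _ (hβγ (kk n))).mono n m hnm)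
    · rw [hf0 n hn]
      exact Finset.empty_subset _
  · intro α hα
    obtain ⟨j, hj⟩ := hβcof α hα
    rcases hj.eq_or_lt with h | h
    · refine ⟨ν j, sstar (ν j) j (hν.monotone (Nat.zero_le j)) (hlekk _ _ le_rfl) ?_⟩
      rw [h]
      exact Finset.mem_insert_self _ _
    · obtain ⟨n', hn'⟩ := (hF _ (hβγ j)).union α h
      refine ⟨max n' (ν j), sstar _ j ?_ (hlekk _ _ (le_max_right _ _)) ?_⟩
      · exact (hν.monotone (Nat.zero_le j)).trans (le_max_right _ _)
      · exact Finset.mem_insert_of_mem ((hF _ (hβγ j)).mono _ _ (le_max_left _ _) hn')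
  · intro n α hα ξ
    by_cases hn : ν 0 ≤ n
    · rw [hf1 n hn] at hα ⊢
      rcases Finset.mem_insert.1 hα with rfl | h
      · constructor
        · intro h1
          exact ⟨Finset.mem_insert_of_mem h1, (hF _ (hβγ (kk n))).lt n ξ h1⟩
        · rintro ⟨h1, h2⟩
          rcases Finset.mem_insert.1 h1 with rfl | h1
          · exact absurd h2 (lt_irrefl _)
          · exact h1
      · have hαβ : α < β (kk n) := (hF _ (hβγ (kk n))).lt n α h
        have hco := (hF _ (hβγ (kk n))).coh n α h ξ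
        constructor
        · intro h1
          exact ⟨Finset.mem_insert_of_mem (hco.1 h1).1, (hco.1 h1).2⟩
        · rintro ⟨h1, h2⟩
          rcases Finset.mem_insert.1 h1 with rfl | h1
          · exact absurd (h2.trans hαβ) (lt_irrefl _)
          · exact hco.2 ⟨h1, h2⟩
    · rw [hf0 n hn] at hα
      simp at hα
  · intro k
    refine ⟨ν k, fun n hn => ?_⟩
    have h1 := hcard n ((hν.monotone (Nat.zero_le k)).trans hn)
    have h2 := hlekk n k hn
    omega
  · intro n
    by_cases hn : ν 0 ≤ n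
    · have := hcard n hn
      omega
    · rw [hf0 n hn]
      simp

end Pool.Agent.Work.MP_e99821_lc.ME
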