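import Pool.Agent.Work.MP_e99821_lc.ME.Defs
import Pool.Agent.Work.MP_e99821_lc.ME.Col

/-!
# Module Apx (S-M): existence of the finite approximations

PROOF. Well-founded recursion exactly as in `exists_rho` at the end of
`Pool/Agent/Work/MP_e99821_lc/Rho.lean` (copy that proof): with
`G γ rec := if h : ∃ f, AppCol (fun n β => if hb : β < γ then rec β hb n else ∅) γ f then h.choose
else fun _ => ∅` and `Φ := wf.fix G : Ω → ℕ → Finset Ω`, `F n β := Φ β n`. Induction on `γ` shows
`AppCol F γ (fun n => F n γ)` for every `γ` by `exists_appCol` (`AppCol F γ f` depends only on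
`F n β`, `β < γ`: a short lemma `appCol_congr`; the members of `f n` are below `γ` by `lt`).
`IsApprox F` is then read off from the columns (the slack is not needed any more).
-/

namespace Pool.Agent.Work.MP_e99821_lc.ME

private theorem appCol_congr {Ω : Type*} [LinearOrder Ω] {F F' : ℕ → Ω → Finset Ω} {γ : Ω}
    {f : ℕ → Finset Ω} (h : ∀ n, ∀ β < γ, F n β = F' n β) (hf : AppCol F γ f) :
    AppCol F' γ f where
  lt := hf.lt
  mono := hf.mono
  union := hf.union
  coh := by
    intro n α hα ξ
    rw [← h n α (hf.lt n α hα)]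
    exact hf.coh n α hα ξ
  slack := hf.slack
  card := hf.card

theorem exists_approx {Ω : Type*} [LinearOrder Ω] [WellFoundedLT Ω]
    (hΩ : ∀ a : Ω, (Set.Iio a).Countable) : ∃ F : ℕ → Ω → Finset Ω, IsApprox F := by
  classical
  have wf : WellFounded ((· < ·) : Ω → Ω → Prop) := IsWellFounded.wf
  let G : ∀ γ : Ω, (∀ β, β < γ → (ℕ → Finset Ω)) → (ℕ → Finset Ω) := fun γ rec =>
    if h : ∃ f, AppCol (fun n β => if hb : β < γ then rec β hb n else ∅) γ f then h.choose
    else fun _ => ∅
  let Φ : Ω → (ℕ → Finset Ω) := wf.fix G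
  have hΦ : ∀ γ, Φ γ = G γ (fun β _ => Φ β) := fun γ => wf.fix_eq G γ
  have hcol : ∀ γ, AppCol (fun n β => Φ β n) γ (fun n => Φ γ n) := by
    intro γ
    induction γ using wf.induction with
    | _ γ ih =>
      have h0 : ∃ f, AppCol (fun n β => Φ β n) γ f :=
        exists_appCol _ γ (hΩ γ) (fun β hβ => ih β hβ)
      have h1 : ∃ f, AppCol (fun n β => if _hb : β < γ then Φ β n else ∅) γ f := by
        obtain ⟨f, hf⟩ := h0
        exact ⟨f, appCol_congr (fun n β hb => by simp [hb]) hf⟩
      have h2 : Φ γ = h1.choose := by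
        rw [hΦ γ]
        simp only [G]
        rw [dif_pos h1]
      have h3 := h1.choose_spec
      rw [← h2] at h3
      exact appCol_congr (fun n β hb => by simp [hb]) h3
  refine ⟨fun n β => Φ β n, ?_, ?_, ?_, ?_, ?_⟩
  · intro n β α h
    exact (hcol β).lt n α h
  · intro β n m h
    exact (hcol β).mono n m h
  · intro α β h
    exact (hcol β).union α h
  · intro n α β h ξ
    exact (hcol β).coh n α h ξ
  · intro n β
    exact (hcol β).card n

end Pool.Agent.Work.MP_e99821_lc.ME
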