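import Pool.Agent.Work.MP_e99821_lc.ME.Defs

/-!
# Module Bulk (M): a matched pair is comparable

Throughout `C` is strictly increasing with `C 0 = 0`, `N = C i`, `N' = C (i + 1)`, `a < b`,
`a ∉ F N b`, `a ∈ F N' b`.
FACTS. (1) If `ξ < γ`, `ξ ∈ F (C (j + 1)) γ`, `ξ ∉ F (C j) γ` then `ix F C ξ γ = j`: `j` is in the set
and no `j' < j` is, because `F (C (j' + 1)) γ ⊆ F (C j) γ` (`mono`, `C (j' + 1) ≤ C j`).
More generally if for every `j`: `ξ ∈ F (C (j + 1)) a ↔ ξ ∈ F (C (j + 1)) b` then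
`ix F C ξ a = ix F C ξ b` (the two sets are equal).
(2) For `m ≥ N'`: `a ∈ F m b`, so `F m a = {x ∈ F m b | x < a}` (`coh`); for `ξ < a`:
`ξ ∈ F m a ↔ ξ ∈ F m b`.
`tf_at`: `ix F C a b = i` by (1); unfold `tf`.
`bulk`: for `ζ = a`: `tf F C w a a = false` (not `a < a`) and `tf F C w b a = w (dpos C i + lab F N' a)
= tgt F C w i a b a = false` by `tf_at` and `hm` at `a ∈ cs`. Let `ζ < a`.
Case A: `ζ ∉ F N' b` (equivalently `ζ ∉ F N' a`). Then for every `j`: if `C (j + 1) ≥ N'` the two sides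
`ζ ∈ F (C (j + 1)) a`, `ζ ∈ F (C (j + 1)) b` are equivalent by (2); if `C (j + 1) < N'` both are false by
`mono`. So the indices are equal and the values `tf` are equal.
Case B: `ζ ∈ F N' b`, so `ζ ∈ F N' a`.
 B1: `ζ ∉ F N a`, `ζ ∉ F N b`: both indices are `i` by (1), values equal.
 B2: `ζ ∈ F N a`, `ζ ∈ F N b`: for `j` with `C (j + 1) ≤ N`: equivalent by `h3`; for `C (j + 1) > N`,
 i.e. `j ≥ i`, `C (j + 1) ≥ N'`: equivalent by (2). So the indices are equal.
 B3: `ζ ∈ F N a`, `ζ ∉ F N b`: `ζ ∈ cs F N a b`, the index of `ζ` below `b` is `i`, so `tf F C w b ζ =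
 w (dpos C i + lab F N' ζ) = tgt F C w i a b ζ = tf F C w a ζ` (`ζ ≠ a`, `ζ ∈ F (C i) a`).
 B4: `ζ ∉ F N a`, `ζ ∈ F N b`: `ζ ∈ cs F N a b`, the index of `ζ` below `a` is `i`, so `tf F C w a ζ =
 w (dpos C i + lab F N' ζ) = tgt F C w i a b ζ = tf F C w b ζ`.
-/

namespace Pool.Agent.Work.MP_e99821_lc.ME

variable {Ω : Type*} [LinearOrder Ω] {F : ℕ → Ω → Finset Ω} {C : ℕ → ℕ}

private theorem ix_eq (hF : IsApprox F) (hC : StrictMono C) {ξ γ : Ω} {j : ℕ}
    (h1 : ξ ∈ F (C (j + 1)) γ) (h2 : ξ ∉ F (C j) γ) : ix F C ξ γ = j := by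
  unfold ix
  apply le_antisymm
  · exact Nat.sInf_le h1
  · refine le_csInf ⟨j, h1⟩ fun j' hj' => ?_
    by_contra hlt
    exact h2 (hF.mono γ (hC.monotone (by omega)) hj')

private theorem tf_eq_of (w : ℕ → Bool) {ζ a b : Ω} (ha : ζ < a) (hb : ζ < b)
    (h : ix F C ζ a = ix F C ζ b) : tf F C w a ζ = tf F C w b ζ := by
  unfold tf
  rw [if_pos ha, if_pos hb, h]

omit [LinearOrder Ω] in
private theorem ix_congr {ζ a b : Ω} (h : ∀ j, ζ ∈ F (C (j + 1)) a ↔ ζ ∈ F (C (j + 1)) b) :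
    ix F C ζ a = ix F C ζ b := by
  unfold ix
  congr 1
  ext j
  exact h j

theorem tf_at (hF : IsApprox F) (hC : StrictMono C) (w : ℕ → Bool) {i : ℕ} {a b : Ω}
    (hab : a < b) (h1 : a ∉ F (C i) b) (h2 : a ∈ F (C (i + 1)) b) :
    tf F C w b a = w (dpos C i + lab F (C (i + 1)) a) := by
  unfold tf
  rw [if_pos hab, ix_eq hF hC h2 h1]

theorem bulk (hF : IsApprox F) (hC : StrictMono C) (w : ℕ → Bool) {i : ℕ} {a b : Ω}
    (hab : a < b) (h1 : a ∉ F (C i) b) (h2 : a ∈ F (C (i + 1)) b)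
    (h3 : ∀ ξ ∈ F (C i) a, ξ ∈ F (C i) b → ∀ m ≤ C i, (ξ ∈ F m a ↔ ξ ∈ F m b))
    (hm : Match F C i w a b) : ∀ ζ ≤ a, tf F C w a ζ = tf F C w b ζ := by
  classical
  intro ζ hζ
  rcases hζ.eq_or_lt with rfl | hlt
  · have h4 : tf F C w ζ ζ = false := by simp [tf]
    have h5 := hm ζ (by simp [cs])
    rw [tf_at hF hC w hab h1 h2, h4, h5]
    simp [tgt]
  · have hltb : ζ < b := hlt.trans hab
    -- beyond the gap
    have hfar : ∀ m, C (i + 1) ≤ m → (ζ ∈ F m a ↔ ζ ∈ F m b) := by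
      intro m hm'
      rw [hF.coh (hF.mono b hm' h2) ζ]
      exact ⟨fun h => h.1, fun h => ⟨h, hlt⟩⟩
    by_cases hN' : ζ ∈ F (C (i + 1)) b
    · have hN'a : ζ ∈ F (C (i + 1)) a := (hfar _ le_rfl).2 hN'
      by_cases ha : ζ ∈ F (C i) a
      · by_cases hb : ζ ∈ F (C i) b
        · refine tf_eq_of w hlt hltb (ix_congr fun j => ?_)
          rcases Nat.lt_or_ge j i with hj | hj
          · exact h3 ζ ha hb _ (hC.monotone (by omega))
          · exact hfar _ (hC.monotone (by omega))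
        · have hcs : ζ ∈ cs F (C i) a b := by
            simp only [cs, Finset.mem_insert, Finset.mem_union, Finset.mem_sdiff,
              Finset.mem_filter]
            exact Or.inr (Or.inl ⟨ha, hb⟩)
          rw [tf_at hF hC w hltb hb hN', hm ζ hcs]
          unfold tgt
          rw [if_neg hlt.ne, if_pos ha]
      · by_cases hb : ζ ∈ F (C i) b
        · have hcs : ζ ∈ cs F (C i) a b := by
            simp only [cs, Finset.mem_insert, Finset.mem_union, Finset.mem_sdiff,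
              Finset.mem_filter]
            exact Or.inr (Or.inr ⟨⟨hb, hlt⟩, ha⟩)
          rw [tf_at hF hC w hlt ha hN'a, hm ζ hcs]
          unfold tgt
          rw [if_neg hlt.ne, if_neg ha]
        · exact tf_eq_of w hlt hltb
            ((ix_eq hF hC hN'a ha).trans (ix_eq hF hC hN' hb).symm)
    · have hN'a : ζ ∉ F (C (i + 1)) a := fun h => hN' ((hfar _ le_rfl).1 h)
      refine tf_eq_of w hlt hltb (ix_congr fun j => ?_)
      rcases Nat.lt_or_ge j i with hj | hj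
      · have h6 : C (j + 1) ≤ C (i + 1) := hC.monotone (by omega)
        exact ⟨fun h => absurd (hF.mono a h6 h) hN'a, fun h => absurd (hF.mono b h6 h) hN'⟩
      · exact hfar _ (hC.monotone (by omega))

end Pool.Agent.Work.MP_e99821_lc.ME
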