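import Pool.Agent.Work.MP_e99821_lc.ME.Defs

/-!
# Module Count (M): finite counting

PROOF of `count_avoid`. For `m ≤ M` let `X_m = {v | ∀ s < m, ∃ x ∈ S s, v x ≠ τ s x}`. Claim:
`2^q * |X_{m+1}| ≤ (2^q - 1) * |X_m|` for `m < M`. For `v ∈ X_m` let `v*` be `v` with the values on
`S m` replaced by those of `τ m`; `v* ∈ X_m`, since `S s`, `s < m`, is disjoint from `S m`, and
`v* ∉ X_{m+1}`. So `v ↦ v*` maps `X_m` to `X_m \ X_{m+1}`, and a fibre has at most `2^|S m| ≤ 2^q`
elements (`v` is determined by `v*` and the restriction of `v` to `S m`). Hence `|X_m| ≤ 2^q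
|X_m \ X_{m+1}| = 2^q (|X_m| - |X_{m+1}|)`. By induction with `Q = 2^q ≤ M`:
`Q^Q |X_Q| ≤ (Q - 1)^Q 2^L`, and `2 (Q - 1)^Q ≤ Q^Q` (for `Q ≥ 2` write `Q^Q = ((Q-1) + 1)^Q ≥
(Q - 1)^Q + Q (Q - 1)^(Q - 1)`, or Bernoulli `one_add_mul_le_pow`; for `Q = 1` the left side is `0`),
so `2 |X_Q| ≤ 2^L`, and `X_M ⊆ X_Q`.
PROOF of `count_bit`: flipping the coordinate `p` is an injection of `{v | v p = false}` into
`{v | v p = true}`, and the two sets partition the `2^L` functions.
-/

namespace Pool.Agent.Work.MP_e99821_lc.ME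

private theorem pow_aux (P n : ℕ) : P ^ n * (P + n) ≤ P * (P + 1) ^ n := by
  induction n with
  | zero => simp
  | succ n ih =>
    have h1 : P ^ n ≤ (P + 1) ^ n := Nat.pow_le_pow_left (Nat.le_succ P) n
    calc P ^ (n + 1) * (P + (n + 1)) = P * (P ^ n * (P + n)) + P * P ^ n := by ring
      _ ≤ P * (P * (P + 1) ^ n) + P * (P + 1) ^ n :=
        Nat.add_le_add (Nat.mul_le_mul_left _ ih) (Nat.mul_le_mul_left _ h1)
      _ = P * (P + 1) ^ (n + 1) := by ring

private theorem two_mul_pow_le (P : ℕ) : 2 * P ^ (P + 1) ≤ (P + 1) ^ (P + 1) := by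
  rcases Nat.eq_zero_or_pos P with rfl | hP
  · simp
  · have h := pow_aux P (P + 1)
    refine Nat.le_of_mul_le_mul_left ?_ hP
    refine le_trans ?_ h
    have h2 : P * (2 * P ^ (P + 1)) = P ^ (P + 1) * (P + P) := by ring
    rw [h2]
    exact Nat.mul_le_mul_left _ (by omega)

theorem count_avoid {L M q : ℕ} (hM : 2 ^ q ≤ M) (S : ℕ → Finset (Fin L)) (τ : ℕ → Fin L → Bool)
    (hcard : ∀ s < M, (S s).card ≤ q)
    (hdisj : ∀ s < M, ∀ s' < M, s ≠ s' → Disjoint (S s) (S s')) :
    2 * Set.ncard {v : Fin L → Bool | ∀ s < M, ∃ x ∈ S s, v x ≠ τ s x} ≤ 2 ^ L := by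
  classical
  let X : ℕ → Finset (Fin L → Bool) := fun m =>
    Finset.univ.filter (fun v => ∀ s < m, ∃ x ∈ S s, v x ≠ τ s x)
  have hmem : ∀ m v, v ∈ X m ↔ ∀ s < m, ∃ x ∈ S s, v x ≠ τ s x := by
    intro m v
    simp [X]
  have hsub : ∀ m, X (m + 1) ⊆ X m := by
    intro m v hv
    rw [hmem] at hv ⊢
    exact fun s hs => hv s (by omega)
  -- the main counting step
  have hstep : ∀ m < M, (X m).card + 2 ^ q * (X (m + 1)).card ≤ 2 ^ q * (X m).card := by
    intro m hm
    let φ : (Fin L → Bool) → (Fin L → Bool) := fun v x => if x ∈ S m then τ m x else v x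
    have himg : (X m).image φ ⊆ X m \ X (m + 1) := by
      intro y hy
      obtain ⟨v, hv, rfl⟩ := Finset.mem_image.1 hy
      rw [Finset.mem_sdiff]
      constructor
      · rw [hmem] at hv ⊢
        intro s hs
        obtain ⟨x, hx, hne⟩ := hv s hs
        refine ⟨x, hx, ?_⟩
        have hx' : x ∉ S m := fun h =>
          (Finset.disjoint_left.1 (hdisj s (by omega) m hm (by omega))) hx h
        simp only [φ, if_neg hx']
        exact hne
      · rw [hmem]
        intro h
        obtain ⟨x, hx, hne⟩ := h m (Nat.lt_succ_self m)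
        apply hne
        simp only [φ, if_pos hx]
    have hfib : (X m).card ≤ 2 ^ q * ((X m).image φ).card := by
      refine Finset.card_le_mul_card_image (X m) (2 ^ q) fun y _ => ?_
      have h1 : ((X m).filter (fun v => φ v = y)).card ≤
          (Finset.univ : Finset (S m → Bool)).card := by
        refine Finset.card_le_card_of_injOn (fun v x => v x.1) (fun _ _ => by simp) ?_
        intro v hv v' hv' h
        have hv1 : φ v = y := (Finset.mem_filter.1 (Finset.mem_coe.1 hv)).2
        have hv2 : φ v' = y := (Finset.mem_filter.1 (Finset.mem_coe.1 hv')).2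
        funext x
        by_cases hx : x ∈ S m
        · exact congrFun h ⟨x, hx⟩
        · have h3 := congrFun (hv1.trans hv2.symm) x
          simpa only [φ, if_neg hx] using h3
      refine h1.trans ?_
      rw [Finset.card_univ, Fintype.card_fun, Fintype.card_bool, Fintype.card_coe]
      exact Nat.pow_le_pow_right (by norm_num) (hcard m hm)
    have h2 : ((X m).image φ).card + (X (m + 1)).card ≤ (X m).card := by
      have h3 := Finset.card_le_card himg
      rw [Finset.card_sdiff_of_subset (hsub m)] at h3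
      have h4 := Finset.card_le_card (hsub m)
      omega
    calc (X m).card + 2 ^ q * (X (m + 1)).card
        ≤ 2 ^ q * ((X m).image φ).card + 2 ^ q * (X (m + 1)).card := by omega
      _ = 2 ^ q * (((X m).image φ).card + (X (m + 1)).card) := by ring
      _ ≤ 2 ^ q * (X m).card := Nat.mul_le_mul_left _ h2
  obtain ⟨P, hP⟩ : ∃ P, 2 ^ q = P + 1 := by
    have h := Nat.pow_pos (n := q) (show 0 < 2 by norm_num)
    exact ⟨2 ^ q - 1, by omega⟩
  have hind : ∀ m ≤ M, (P + 1) ^ m * (X m).card ≤ P ^ m * 2 ^ L := by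
    intro m
    induction m with
    | zero =>
      intro _
      have h1 := Finset.card_le_univ (X 0)
      rw [Fintype.card_fun, Fintype.card_bool, Fintype.card_fin] at h1
      simpa using h1
    | succ m ih =>
      intro hm
      have h1 := ih (by omega)
      have h2 := hstep m (by omega)
      rw [hP] at h2
      have h3 : (P + 1) * (X (m + 1)).card ≤ P * (X m).card := by
        have h4 : (P + 1) * (X m).card = P * (X m).card + (X m).card := by ring
        omega
      calc (P + 1) ^ (m + 1) * (X (m + 1)).card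
          = (P + 1) ^ m * ((P + 1) * (X (m + 1)).card) := by ring
        _ ≤ (P + 1) ^ m * (P * (X m).card) := Nat.mul_le_mul_left _ h3
        _ = P * ((P + 1) ^ m * (X m).card) := by ring
        _ ≤ P * (P ^ m * 2 ^ L) := Nat.mul_le_mul_left _ h1
        _ = P ^ (m + 1) * 2 ^ L := by ring
  have hfin : 2 * (X (P + 1)).card ≤ 2 ^ L := by
    have h1 := hind (P + 1) (by omega)
    have h2 := two_mul_pow_le P
    have hpos : 0 < (P + 1) ^ (P + 1) := Nat.pow_pos (Nat.succ_pos P)
    refine Nat.le_of_mul_le_mul_left ?_ hpos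
    calc (P + 1) ^ (P + 1) * (2 * (X (P + 1)).card)
        = 2 * ((P + 1) ^ (P + 1) * (X (P + 1)).card) := by ring
      _ ≤ 2 * (P ^ (P + 1) * 2 ^ L) := Nat.mul_le_mul_left _ h1
      _ = (2 * P ^ (P + 1)) * 2 ^ L := by ring
      _ ≤ (P + 1) ^ (P + 1) * 2 ^ L := Nat.mul_le_mul_right _ h2
  have hXM : {v : Fin L → Bool | ∀ s < M, ∃ x ∈ S s, v x ≠ τ s x} ⊆
      (X (P + 1) : Set (Fin L → Bool)) := by
    intro v hv
    rw [Finset.mem_coe, hmem]
    exact fun s hs => hv s (by omega)
  have hle := Set.ncard_le_ncard hXM (Finset.finite_toSet _)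
  rw [Set.ncard_coe_finset] at hle
  omega

theorem count_bit {L : ℕ} (p : Fin L) :
    2 * Set.ncard {v : Fin L → Bool | v p = false} ≤ 2 ^ L := by
  classical
  let φ : (Fin L → Bool) → (Fin L → Bool) := fun v => Function.update v p true
  have hinj : Set.InjOn φ {v : Fin L → Bool | v p = false} := by
    intro v hv v' hv' h
    funext x
    by_cases hx : x = p
    · subst hx
      exact (show v x = false from hv).trans (show v' x = false from hv').symm
    · have h1 := congrFun h x
      simpa only [φ, Function.update_of_ne hx] using h1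
  have hdis : Disjoint {v : Fin L → Bool | v p = false} (φ '' {v : Fin L → Bool | v p = false}) := by
    rw [Set.disjoint_left]
    rintro _ hv ⟨v', _, rfl⟩
    have h1 : φ v' p = false := hv
    simp [φ] at h1
  have h1 := Set.ncard_union_eq hdis (Set.toFinite _) (Set.toFinite _)
  rw [hinj.ncard_image] at h1
  have h2 : Set.ncard ({v : Fin L → Bool | v p = false} ∪ φ '' {v : Fin L → Bool | v p = false})
      ≤ 2 ^ L := by
    refine (Set.ncard_le_ncard (Set.subset_univ _) (Set.toFinite _)).trans ?_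
    rw [Set.ncard_univ, Nat.card_eq_fintype_card, Fintype.card_fun, Fintype.card_bool,
      Fintype.card_fin]
  omega

end Pool.Agent.Work.MP_e99821_lc.ME
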