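import Mathlib
import Pool.Agent.Work.MP_e99821_lc.Defs

/-!
# Definitions for the closed measure zero theorem (FIXED, do not change)

Notation of the headers: `F_n(β)` is `F n β`, `ix ξ γ` is the index of the block of `ξ` below `γ`:
the least `i` with `ξ ∈ F_{C(i+1)}(γ)`.
-/

namespace Pool.Agent.Work.MP_e99821_lc.ME

/-- The real line is the union of at most `κ` closed sets of Lebesgue measure zero. -/
def CovClosedNullAtMost (κ : Cardinal.{0}) : Prop :=
  ∃ 𝓕 : Set (Set ℝ), Cardinal.mk 𝓕 ≤ κ ∧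
    (∀ F ∈ 𝓕, IsClosed F ∧ MeasureTheory.volume F = 0) ∧ ⋃₀ 𝓕 = Set.univ

section approx

variable {Ω : Type*} [LinearOrder Ω]

/-- A coherent system of finite approximations `F n β` of the initial segments `Iio β`, with at
most `n` elements in `F n β`. -/
structure IsApprox (F : ℕ → Ω → Finset Ω) : Prop where
  lt : ∀ {n : ℕ} {β α : Ω}, α ∈ F n β → α < β
  mono : ∀ (β : Ω) {n m : ℕ}, n ≤ m → F n β ⊆ F m β
  union : ∀ {α β : Ω}, α < β → ∃ n, α ∈ F n β
  coh : ∀ {n : ℕ} {α β : Ω}, α ∈ F n β → ∀ ξ, (ξ ∈ F n α ↔ ξ ∈ F n β ∧ ξ < α)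
  card : ∀ (n : ℕ) (β : Ω), (F n β).card ≤ n

/-- One more column `f` below `γ` for the system `F`, with slack. -/
structure AppCol (F : ℕ → Ω → Finset Ω) (γ : Ω) (f : ℕ → Finset Ω) : Prop where
  lt : ∀ n, ∀ α ∈ f n, α < γ
  mono : ∀ n m, n ≤ m → f n ⊆ f m
  union : ∀ α < γ, ∃ n, α ∈ f n
  coh : ∀ n, ∀ α ∈ f n, ∀ ξ, (ξ ∈ F n α ↔ ξ ∈ f n ∧ ξ < α)
  slack : ∀ k, ∃ n₀, ∀ n ≥ n₀, (f n).card + k ≤ n
  card : ∀ n, (f n).card ≤ n

/-- The index of the block: the least `i` with `ξ ∈ F (C (i + 1)) γ`. -/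
noncomputable def ix (F : ℕ → Ω → Finset Ω) (C : ℕ → ℕ) (ξ γ : Ω) : ℕ :=
  sInf {i | ξ ∈ F (C (i + 1)) γ}

/-- The label of `ξ` for the number `N`. -/
def lab (F : ℕ → Ω → Finset Ω) (N : ℕ) (ξ : Ω) : ℕ := (F N ξ).card

/-- The first position of block number `i`; the block has length `C (i + 1) + 1`. -/
def dpos (C : ℕ → ℕ) (i : ℕ) : ℕ := ∑ j ∈ Finset.range i, (C (j + 1) + 1)

/-- The tree functions read from the real `w`. -/
noncomputable def tf (F : ℕ → Ω → Finset Ω) (C : ℕ → ℕ) (w : ℕ → Bool) (γ ξ : Ω) : Bool :=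
  if ξ < γ then w (dpos C (ix F C ξ γ) + lab F (C (ix F C ξ γ + 1)) ξ) else false

/-- The finite set of conditions of the pair `a < b` for the number `N`. -/
def cs (F : ℕ → Ω → Finset Ω) (N : ℕ) (a b : Ω) : Finset Ω :=
  insert a ((F N a \ F N b) ∪ ((F N b).filter (fun ξ => ξ < a) \ F N a))

/-- The value that `w` has to take for the condition `ξ` of the pair `a < b`. -/
noncomputable def tgt (F : ℕ → Ω → Finset Ω) (C : ℕ → ℕ) (w : ℕ → Bool) (i : ℕ) (a b ξ : Ω) :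
    Bool :=
  if ξ = a then false else if ξ ∈ F (C i) a then tf F C w a ξ else tf F C w b ξ

/-- The real `w` matches the pair `a < b` in block `i`. -/
def Match (F : ℕ → Ω → Finset Ω) (C : ℕ → ℕ) (i : ℕ) (w : ℕ → Bool) (a b : Ω) : Prop :=
  ∀ ξ ∈ cs F (C i) a b, w (dpos C i + lab F (C (i + 1)) ξ) = tgt F C w i a b ξ

/-- A sequence of good pairs `a s < b s` of elements of `A` for the number `N`. -/
structure GoodPairs (F : ℕ → Ω → Finset Ω) (A : Set Ω) (N : ℕ) (a b : ℕ → Ω) : Prop where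
  ha : ∀ s, a s ∈ A
  hb : ∀ s, b s ∈ A
  hab : ∀ s, a s < b s
  hout : ∀ s, a s ∉ F N (b s)
  hroot : ∀ s, ∀ ξ ∈ F N (a s), ξ ∈ F N (b s) → ∀ m ≤ N, (ξ ∈ F m (a s) ↔ ξ ∈ F m (b s))
  hdisj : ∀ s s', s ≠ s' → Disjoint (cs F N (a s) (b s)) (cs F N (a s') (b s'))

/-- `N'` is a long gap for the pairs with numbers below `2 ^ (2 * N + 1)`. -/
structure LongGap (F : ℕ → Ω → Finset Ω) (N : ℕ) (a b : ℕ → Ω) (N' : ℕ) : Prop where
  hin : ∀ s < 2 ^ (2 * N + 1), a s ∈ F N' (b s)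
  hinj : ∀ s < 2 ^ (2 * N + 1), ∀ s' < 2 ^ (2 * N + 1), ∀ ξ ∈ cs F N (a s) (b s),
    ∀ ξ' ∈ cs F N (a s') (b s'), lab F N' ξ = lab F N' ξ' → ξ = ξ'

end approx

section blocks

/-- The function `w` with the values at the places `n, ..., n + L - 1` replaced by `v`. -/
def paste {L : ℕ} (n : ℕ) (w : ℕ → Bool) (v : Fin L → Bool) : ℕ → Bool :=
  fun m => if h : n ≤ m ∧ m < n + L then v ⟨m - n, by omega⟩ else w m

/-- The first position of block `i` for the block lengths `L`. -/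
def bpos (L : ℕ → ℕ) (i : ℕ) : ℕ := ∑ j ∈ Finset.range i, L j

/-- Extension of a finite string by `false`. -/
def ext {n : ℕ} (s : Fin n → Bool) : ℕ → Bool := fun m => if h : m < n then s ⟨m, h⟩ else false

/-- The predicate `Bad i` depends only on the first `i + 1` blocks. -/
def IsLocal (L : ℕ → ℕ) (Bad : ℕ → (ℕ → Bool) → Prop) : Prop :=
  ∀ i w w', (∀ n < bpos L (i + 1), w n = w' n) → (Bad i w ↔ Bad i w')

/-- At the blocks `i ∈ K` the predicate `Bad i` has conditional probability at most one half. -/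
def IsHalf (L : ℕ → ℕ) (K : Set ℕ) (Bad : ℕ → (ℕ → Bool) → Prop) : Prop :=
  ∀ i ∈ K, ∀ w, 2 * Set.ncard {v : Fin (L i) → Bool | Bad i (paste (bpos L i) w v)} ≤ 2 ^ L i

/-- The real number with the binary digits `w`. -/
noncomputable def bin (w : ℕ → Bool) : ℝ :=
  Real.ofDigits (fun n => (if w n then 1 else 0 : Fin 2))

end blocks

end Pool.Agent.Work.MP_e99821_lc.ME
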