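import Pool.Agent.Work.MP_e99821_lc.ME.Defs

/-!
# Module Esc1 (M): number of the finite strings all of whose blocks are bad

PROOF. Let `T_j` be the set in the statement. Induction on `j`. `j = 0`: `K ∩ Iio 0` is empty and
`Fin (bpos L 0) → Bool` has one element. Step: `bpos L (j + 1) = bpos L j + L j`. Restriction to the
first `bpos L j` places maps `T_{j+1}` to `T_j`: for `i < j` the functions `ext s` and
`ext (s restricted)` agree below `bpos L j ≥ bpos L (i + 1)`, use `IsLocal`. The fibre over `t ∈ T_j`
injects (last `L j` places `v`) into `Fin (L j) → Bool`, and if `j ∈ K` its image is in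
`{v | Bad j (paste (bpos L j) (ext t) v)}`, since `ext s` and `paste (bpos L j) (ext t) v` agree below
`bpos L (j + 1)`; this set has at most `2 ^ L j / 2` elements by `IsHalf`. So `|T_{j+1}| ≤ 2^(L j)
|T_j|`, and `2 |T_{j+1}| ≤ 2^(L j) |T_j|` if `j ∈ K`. Finally `ncard (K ∩ Iio (j + 1)) =
ncard (K ∩ Iio j) + 1` if `j ∈ K`, and is `ncard (K ∩ Iio j)` if `j ∉ K`.
(One may work with `Finset.card_le_mul_card_image` or with the equivalence `Fin.appendEquiv`,
`(Fin (m + n) → Bool) ≃ (Fin m → Bool) × (Fin n → Bool)`.)
-/

namespace Pool.Agent.Work.MP_e99821_lc.ME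

private theorem bpos_succ (L : ℕ → ℕ) (j : ℕ) : bpos L (j + 1) = bpos L j + L j :=
  Finset.sum_range_succ _ _

private theorem bpos_mono (L : ℕ → ℕ) : Monotone (bpos L) := by
  refine monotone_nat_of_le_succ fun j => ?_
  rw [bpos_succ]
  exact Nat.le_add_right _ _

private theorem ncard_filter {α : Type*} [Fintype α] (P : α → Prop) [DecidablePred P] :
    Set.ncard {a | P a} = (Finset.univ.filter P).card := by
  rw [← Set.ncard_coe_finset]
  congr 1
  ext a
  simp

theorem card_prefix {L : ℕ → ℕ} {K : Set ℕ} {Bad : ℕ → (ℕ → Bool) → Prop}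
    (hloc : IsLocal L Bad) (hhalf : IsHalf L K Bad) (j : ℕ) :
    2 ^ Set.ncard (K ∩ Set.Iio j) *
      Set.ncard {s : Fin (bpos L j) → Bool | ∀ i < j, i ∈ K → Bad i (ext s)} ≤ 2 ^ bpos L j := by
  classical
  rw [ncard_filter]
  induction j with
  | zero =>
    have h1 : K ∩ Set.Iio 0 = ∅ := by
      ext x
      simp
    rw [h1, Set.ncard_empty, pow_zero, one_mul]
    refine (Finset.card_le_univ _).trans ?_
    rw [Fintype.card_fun, Fintype.card_bool, Fintype.card_fin]
  | succ j ih =>
    have hlt : ∀ x : Fin (bpos L j), (x : ℕ) < bpos L (j + 1) := fun x =>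
      x.2.trans_le (bpos_mono L (Nat.le_succ j))
    have hlt' : ∀ y : Fin (L j), bpos L j + (y : ℕ) < bpos L (j + 1) := fun y => by
      rw [bpos_succ]
      exact Nat.add_lt_add_left y.2 _
    let res : (Fin (bpos L (j + 1)) → Bool) → (Fin (bpos L j) → Bool) := fun s x => s ⟨x, hlt x⟩
    let tl : (Fin (bpos L (j + 1)) → Bool) → (Fin (L j) → Bool) := fun s y =>
      s ⟨bpos L j + y, hlt' y⟩
    have hext : ∀ s, ∀ n < bpos L j, ext s n = ext (res s) n := by
      intro s n hn
      have hn' : n < bpos L (j + 1) := hn.trans_le (bpos_mono L (Nat.le_succ j))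
      unfold ext
      rw [dif_pos hn, dif_pos hn']
    have hpaste : ∀ s, ∀ n < bpos L (j + 1), ext s n = paste (bpos L j) (ext (res s)) (tl s) n := by
      intro s n hn
      unfold paste
      by_cases h : bpos L j ≤ n
      · have h2 : n < bpos L j + L j := by
          rw [← bpos_succ]
          exact hn
        rw [dif_pos ⟨h, h2⟩]
        unfold ext
        rw [dif_pos hn]
        simp only [tl]
        congr 1
        exact Fin.ext (by simp; omega)
      · rw [dif_neg (fun h' => h h'.1)]
        exact hext s n (not_le.1 h)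
    set X : Finset (Fin (bpos L (j + 1)) → Bool) :=
      Finset.univ.filter (fun s => ∀ i < j + 1, i ∈ K → Bad i (ext s)) with hX
    set Y : Finset (Fin (bpos L j) → Bool) :=
      Finset.univ.filter (fun s => ∀ i < j, i ∈ K → Bad i (ext s)) with hY
    have himg : X.image res ⊆ Y := by
      intro t ht
      obtain ⟨s, hs, rfl⟩ := Finset.mem_image.1 ht
      rw [hX, Finset.mem_filter] at hs
      rw [hY, Finset.mem_filter]
      refine ⟨Finset.mem_univ _, fun i hi hiK => ?_⟩
      refine (hloc i _ _ fun n hn => ?_).1 (hs.2 i (by omega) hiK)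
      exact hext s n (hn.trans_le (bpos_mono L (by omega)))
    have hfibinj : ∀ t, Set.InjOn tl ((X.filter (fun s => res s = t) : Finset _) : Set _) := by
      intro t s hs s' hs' h
      have h1 : res s = t := (Finset.mem_filter.1 (Finset.mem_coe.1 hs)).2
      have h2 : res s' = t := (Finset.mem_filter.1 (Finset.mem_coe.1 hs')).2
      funext x
      by_cases hx : (x : ℕ) < bpos L j
      · exact congrFun (h1.trans h2.symm) ⟨x, hx⟩
      · have hx2 : (x : ℕ) - bpos L j < L j := by
          have h5 := x.2
          have h6 := bpos_succ L j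
          omega
        have h3 := congrFun h ⟨x - bpos L j, hx2⟩
        have h4 : (⟨bpos L j + (x - bpos L j), hlt' ⟨x - bpos L j, hx2⟩⟩ :
            Fin (bpos L (j + 1))) = x := Fin.ext (by simp; omega)
        simpa only [tl, h4] using h3
    by_cases hjK : j ∈ K
    · have hfib : ∀ t ∈ X.image res, (X.filter (fun s => res s = t)).card ≤ 2 ^ L j / 2 := by
        intro t _
        have h1 := hhalf j hjK (ext t)
        rw [ncard_filter] at h1
        have h2 : (X.filter (fun s => res s = t)).card ≤
            (Finset.univ.filter (fun v : Fin (L j) → Bool =>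
              Bad j (paste (bpos L j) (ext t) v))).card := by
          refine Finset.card_le_card_of_injOn tl ?_ (hfibinj t)
          intro s hs
          obtain ⟨hs1, hs2⟩ := Finset.mem_filter.1 (Finset.mem_coe.1 hs)
          rw [hX, Finset.mem_filter] at hs1
          rw [Finset.mem_coe, Finset.mem_filter]
          refine ⟨Finset.mem_univ _, ?_⟩
          rw [← hs2]
          exact (hloc j _ _ fun n hn => hpaste s n hn).1 (hs1.2 j (Nat.lt_succ_self j) hjK)
        omega
      have h1 := Finset.card_le_mul_card_image X _ hfib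
      have h2 : X.card ≤ 2 ^ L j / 2 * Y.card :=
        h1.trans (Nat.mul_le_mul_left _ (Finset.card_le_card himg))
      have h3 : K ∩ Set.Iio (j + 1) = insert j (K ∩ Set.Iio j) := by
        ext x
        simp only [Set.mem_inter_iff, Set.mem_Iio, Set.mem_insert_iff]
        constructor
        · rintro ⟨a1, a2⟩
          by_cases hxj : x = j
          · exact Or.inl hxj
          · exact Or.inr ⟨a1, by omega⟩
        · rintro (rfl | ⟨a1, a2⟩)
          · exact ⟨hjK, by omega⟩
          · exact ⟨a1, by omega⟩
      have h4 : Set.ncard (K ∩ Set.Iio (j + 1)) = Set.ncard (K ∩ Set.Iio j) + 1 := by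
        rw [h3]
        exact Set.ncard_insert_of_notMem (by simp) ((Set.finite_Iio j).subset
          Set.inter_subset_right)
      have h5 : 2 * (2 ^ L j / 2) ≤ 2 ^ L j := Nat.mul_div_le _ _
      rw [h4]
      calc 2 ^ (Set.ncard (K ∩ Set.Iio j) + 1) * X.card
          ≤ 2 ^ (Set.ncard (K ∩ Set.Iio j) + 1) * (2 ^ L j / 2 * Y.card) :=
            Nat.mul_le_mul_left _ h2
        _ = (2 * (2 ^ L j / 2)) * (2 ^ Set.ncard (K ∩ Set.Iio j) * Y.card) := by ring
        _ ≤ 2 ^ L j * 2 ^ bpos L j := Nat.mul_le_mul h5 ih
        _ = 2 ^ bpos L (j + 1) := by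
          rw [bpos_succ]
          ring
    · have hfib : ∀ t ∈ X.image res, (X.filter (fun s => res s = t)).card ≤ 2 ^ L j := by
        intro t _
        have h2 : (X.filter (fun s => res s = t)).card ≤
            (Finset.univ : Finset (Fin (L j) → Bool)).card :=
          Finset.card_le_card_of_injOn tl (fun _ _ => by simp) (hfibinj t)
        rw [Finset.card_univ, Fintype.card_fun, Fintype.card_bool, Fintype.card_fin] at h2
        exact h2
      have h1 := Finset.card_le_mul_card_image X _ hfib
      have h2 : X.card ≤ 2 ^ L j * Y.card :=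
        h1.trans (Nat.mul_le_mul_left _ (Finset.card_le_card himg))
      have h3 : K ∩ Set.Iio (j + 1) = K ∩ Set.Iio j := by
        ext x
        simp only [Set.mem_inter_iff, Set.mem_Iio]
        constructor
        · rintro ⟨a1, a2⟩
          refine ⟨a1, ?_⟩
          have hxj : x ≠ j := by
            rintro rfl
            exact hjK a1
          omega
        · rintro ⟨a1, a2⟩
          exact ⟨a1, by omega⟩
      rw [h3]
      calc 2 ^ Set.ncard (K ∩ Set.Iio j) * X.card
          ≤ 2 ^ Set.ncard (K ∩ Set.Iio j) * (2 ^ L j * Y.card) := Nat.mul_le_mul_left _ h2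
        _ = 2 ^ L j * (2 ^ Set.ncard (K ∩ Set.Iio j) * Y.card) := by ring
        _ ≤ 2 ^ L j * 2 ^ bpos L j := Nat.mul_le_mul_left _ ih
        _ = 2 ^ bpos L (j + 1) := by
          rw [bpos_succ]
          ring

end Pool.Agent.Work.MP_e99821_lc.ME
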