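import Pool.Agent.Work.MP_e99821_lc.ME.Defs
import Pool.Agent.Work.MP_e99821_lc.ME.Esc1

/-!
# Module Esc2 (M): the real numbers all of whose blocks are bad form a closed null set

PROOF. `bin` is continuous: `Real.continuous_ofDigits` composed with the coordinatewise map (every
function out of the discrete space `Bool` is continuous; `continuous_pi`).
`B = {w | ∀ i ∈ K, Bad i w}` is closed: it is the intersection of the sets `{w | Bad i w}`, and each of
them is clopen, because by `IsLocal` it is the preimage of a set under the continuous restriction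
`(ℕ → Bool) → (Fin (bpos L (i + 1)) → Bool)` to a discrete space. `ℕ → Bool` is compact, so `B` and
`bin '' B` are compact, and `bin '' B` is closed.
Null: fix `j`, `n = bpos L j`. For `w ∈ B` let `s` be the restriction of `w` to `Fin n`; by `IsLocal`
`s ∈ T_j = {s | ∀ i < j, i ∈ K → Bad i (ext s)}`, and `|bin w - bin (ext s)| ≤ 2^(-n)` by
`Real.abs_ofDigits_sub_ofDigits_le`. So `bin '' B` is in the union over `s ∈ T_j` of the closed
intervals with centre `bin (ext s)` and radius `2^(-n)`, and its volume is at most
`|T_j| * 2 * 2^(-n) ≤ 2 * 2^(-ncard (K ∩ Iio j))` by `card_prefix`. This tends to `0` as `j → ∞`,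
because `K` is infinite (`ncard (K ∩ Iio j)` takes arbitrarily large values).
-/

namespace Pool.Agent.Work.MP_e99821_lc.ME

theorem continuous_bin : Continuous bin := by
  refine Real.continuous_ofDigits.comp (continuous_pi fun n => ?_)
  exact (continuous_of_discreteTopology (f := fun b : Bool => (if b then 1 else 0 : Fin 2))).comp
    (continuous_apply n)

private theorem bpos_mono (L : ℕ → ℕ) : Monotone (bpos L) := by
  refine monotone_nat_of_le_succ fun j => ?_
  have : bpos L (j + 1) = bpos L j + L j := Finset.sum_range_succ _ _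
  rw [this]
  exact Nat.le_add_right _ _

private theorem isClosed_bad {L : ℕ → ℕ} {Bad : ℕ → (ℕ → Bool) → Prop} (hloc : IsLocal L Bad)
    (i : ℕ) : IsClosed {w : ℕ → Bool | Bad i w} := by
  have h : {w : ℕ → Bool | Bad i w} =
      (fun (w : ℕ → Bool) (x : Fin (bpos L (i + 1))) => w x) ⁻¹' {s | Bad i (ext s)} := by
    ext w
    refine hloc i _ _ fun n hn => ?_
    unfold ext
    rw [dif_pos hn]
  rw [h]
  refine IsClosed.preimage (continuous_pi fun x => continuous_apply _) (isClosed_discrete _)

theorem image_closed_null {L : ℕ → ℕ} {K : Set ℕ} {Bad : ℕ → (ℕ → Bool) → Prop}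
    (hK : K.Infinite) (hloc : IsLocal L Bad) (hhalf : IsHalf L K Bad) :
    IsClosed (bin '' {w | ∀ i ∈ K, Bad i w}) ∧
      MeasureTheory.volume (bin '' {w | ∀ i ∈ K, Bad i w}) = 0 := by
  classical
  constructor
  · have h1 : IsClosed {w : ℕ → Bool | ∀ i ∈ K, Bad i w} := by
      have h2 : {w : ℕ → Bool | ∀ i ∈ K, Bad i w} = ⋂ i ∈ K, {w | Bad i w} := by
        ext w
        simp
      rw [h2]
      exact isClosed_biInter fun i _ => isClosed_bad hloc i
    exact (h1.isCompact.image continuous_bin).isClosed
  · -- the bound at stage `j`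
    have hbound : ∀ j : ℕ, MeasureTheory.volume (bin '' {w | ∀ i ∈ K, Bad i w}) ≤
        ENNReal.ofReal (2 * (2⁻¹ : ℝ) ^ Set.ncard (K ∩ Set.Iio j)) := by
      intro j
      let T : Set (Fin (bpos L j) → Bool) := {s | ∀ i < j, i ∈ K → Bad i (ext s)}
      have hTfin : T.Finite := Set.toFinite T
      have hcov : bin '' {w | ∀ i ∈ K, Bad i w} ⊆
          ⋃ s ∈ hTfin.toFinset, Metric.closedBall (bin (ext s)) ((2 ^ bpos L j : ℝ)⁻¹) := by
        rintro _ ⟨w, hw, rfl⟩
        have hagree : ∀ n < bpos L j, w n = ext (fun x : Fin (bpos L j) => w x) n := by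
          intro n hn
          unfold ext
          rw [dif_pos hn]
        refine Set.mem_biUnion (x := fun x : Fin (bpos L j) => w x) ?_ ?_
        · rw [Finset.mem_coe, Set.Finite.mem_toFinset]
          intro i hi hiK
          exact (hloc i _ _ fun n hn => hagree n (hn.trans_le (bpos_mono L (by omega)))).1
            (hw i hiK)
        · rw [Metric.mem_closedBall, Real.dist_eq]
          have h3 := Real.abs_ofDigits_sub_ofDigits_le (b := 2)
            (x := fun n => (if w n then 1 else 0 : Fin 2))
            (y := fun n => (if ext (fun x : Fin (bpos L j) => w x) n then 1 else 0 : Fin 2))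
            (n := bpos L j) (fun n hn => by rw [hagree n hn])
          exact_mod_cast h3
      have hcount := card_prefix hloc hhalf j
      rw [show ({s : Fin (bpos L j) → Bool | ∀ i < j, i ∈ K → Bad i (ext s)} : Set _) = T from rfl,
        Set.ncard_eq_toFinset_card T hTfin] at hcount
      have hreal : (2 : ℝ) ^ Set.ncard (K ∩ Set.Iio j) * (hTfin.toFinset.card : ℝ) ≤
          2 ^ bpos L j := by
        exact_mod_cast hcount
      calc MeasureTheory.volume (bin '' {w | ∀ i ∈ K, Bad i w})
          ≤ MeasureTheory.volume (⋃ s ∈ hTfin.toFinset,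
              Metric.closedBall (bin (ext s)) ((2 ^ bpos L j : ℝ)⁻¹)) :=
            MeasureTheory.measure_mono hcov
        _ ≤ ∑ s ∈ hTfin.toFinset, MeasureTheory.volume
              (Metric.closedBall (bin (ext s)) ((2 ^ bpos L j : ℝ)⁻¹)) :=
            MeasureTheory.measure_biUnion_finset_le _ _
        _ = ENNReal.ofReal (hTfin.toFinset.card * (2 * (2 ^ bpos L j : ℝ)⁻¹)) := by
            simp only [Real.volume_closedBall]
            rw [Finset.sum_const, nsmul_eq_mul,
              ENNReal.ofReal_mul (p := (hTfin.toFinset.card : ℝ)) (by positivity),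
              ENNReal.ofReal_natCast]
        _ ≤ ENNReal.ofReal (2 * (2⁻¹ : ℝ) ^ Set.ncard (K ∩ Set.Iio j)) := by
            apply ENNReal.ofReal_le_ofReal
            have hp1 : (0 : ℝ) < 2 ^ bpos L j := by positivity
            have hp2 : (0 : ℝ) < 2 ^ Set.ncard (K ∩ Set.Iio j) := by positivity
            rw [inv_pow]
            have h4 : (hTfin.toFinset.card : ℝ) ≤
                2 ^ bpos L j * (2 ^ Set.ncard (K ∩ Set.Iio j))⁻¹ := by
              rw [← div_eq_mul_inv, le_div_iff₀ hp2]
              linarith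
            calc (hTfin.toFinset.card : ℝ) * (2 * (2 ^ bpos L j)⁻¹)
                ≤ (2 ^ bpos L j * (2 ^ Set.ncard (K ∩ Set.Iio j))⁻¹) * (2 * (2 ^ bpos L j)⁻¹) :=
                  mul_le_mul_of_nonneg_right h4 (by positivity)
              _ = 2 * (2 ^ Set.ncard (K ∩ Set.Iio j))⁻¹ := by
                  field_simp
    -- the number of elements of `K` below `j` is unbounded
    have hlim : ∀ m : ℕ, ∃ j, m ≤ Set.ncard (K ∩ Set.Iio j) := by
      intro m
      obtain ⟨s, hs, hcard⟩ := hK.exists_subset_card_eq m
      refine ⟨s.sup id + 1, ?_⟩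
      rw [← hcard, ← Set.ncard_coe_finset]
      refine Set.ncard_le_ncard ?_ ((Set.finite_Iio _).subset Set.inter_subset_right)
      intro x hx
      exact ⟨hs hx, Nat.lt_succ_of_le (Finset.le_sup (f := id) hx)⟩
    have hall : ∀ m : ℕ, MeasureTheory.volume (bin '' {w | ∀ i ∈ K, Bad i w}) ≤
        ENNReal.ofReal (2 * (2⁻¹ : ℝ) ^ m) := by
      intro m
      obtain ⟨j, hj⟩ := hlim m
      refine (hbound j).trans (ENNReal.ofReal_le_ofReal ?_)
      exact mul_le_mul_of_nonneg_left
        (pow_le_pow_of_le_one (by norm_num) (by norm_num) hj) (by norm_num)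
    have htend : Filter.Tendsto (fun m : ℕ => ENNReal.ofReal (2 * (2⁻¹ : ℝ) ^ m)) Filter.atTop
        (nhds 0) := by
      have h1 : Filter.Tendsto (fun m : ℕ => 2 * (2⁻¹ : ℝ) ^ m) Filter.atTop (nhds (2 * 0)) :=
        (tendsto_pow_atTop_nhds_zero_of_lt_one (by norm_num) (by norm_num)).const_mul 2
      have h2 := ENNReal.tendsto_ofReal h1
      simpa using h2
    exact le_antisymm (ge_of_tendsto' htend hall) zero_le

end Pool.Agent.Work.MP_e99821_lc.ME
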