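import Pool.Agent.Work.MP_e99821_lc.ME.Defs
import Pool.Agent.Work.MP_e99821_lc.ME.Esc2

/-!
# Module Esc3 (S-M): the escape lemma

PROOF. Suppose not: for every `w` there is `α` with `w ∈ B_α = {w | ∀ i ∈ K α, Bad α i w}`. Let `𝓕` be
the range of `(α, z) ↦ (fun x => x + z) '' (bin '' B_α)`, `α ∈ ι`, `z ∈ ℤ`. It has at most
`κ * ℵ₀ = κ` members (`Cardinal.mk_range_le`, `Cardinal.mk_prod`, `Cardinal.mul_le_mul'`,
`Cardinal.mul_eq_self` or `Cardinal.mul_aleph0_eq`). Each member is closed and null: a translate of a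
closed null set (`Homeomorph.addRight`, `MeasureTheory.measure_preimage_add_right` or
`Real.volume ...image_add_right`), by `image_closed_null`. The union is everything: for real `x`,
`Int.fract x ∈ [0, 1)` is `Real.ofDigits d` for some `d : ℕ → Fin 2` (`Real.ofDigits_SurjOn`), so it is
`bin w` with `w n = true` iff `d n = 1`; `w ∈ B_α` for some `α`, and `x = bin w + ⌊x⌋`. So
`CovClosedNullAtMost κ`, a contradiction.
-/

namespace Pool.Agent.Work.MP_e99821_lc.ME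

open Cardinal

private theorem exists_bin (x : ℝ) (h0 : 0 ≤ x) (h1 : x < 1) : ∃ w : ℕ → Bool, bin w = x := by
  obtain ⟨d, -, hd⟩ := Real.ofDigits_SurjOn (b := 2) (by norm_num) ⟨h0, h1.le⟩
  refine ⟨fun n => decide (d n = 1), ?_⟩
  rw [← hd]
  unfold bin
  congr 1
  funext n
  by_cases h : d n = 1
  · simp [h]
  · have h2 : d n = 0 := by
      rcases Fin.exists_fin_two.1 ⟨d n, rfl⟩ with h2 | h2
      · exact h2
      · exact absurd h2 h
    simp [h2]

theorem escape {κ : Cardinal.{0}} (hκ : ℵ₀ ≤ κ) (hcov : ¬ CovClosedNullAtMost κ) {ι : Type}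
    (hι : Cardinal.mk ι ≤ κ) (L : ℕ → ℕ) (K : ι → Set ℕ) (Bad : ι → ℕ → (ℕ → Bool) → Prop)
    (hK : ∀ α, (K α).Infinite) (hloc : ∀ α, IsLocal L (Bad α))
    (hhalf : ∀ α, IsHalf L (K α) (Bad α)) : ∃ w : ℕ → Bool, ∀ α, ∃ i ∈ K α, ¬ Bad α i w := by
  classical
  by_contra hcon
  push Not at hcon
  apply hcov
  let G : ι × ℤ → Set ℝ := fun p =>
    (fun x : ℝ => x + (p.2 : ℝ)) '' (bin '' {w | ∀ i ∈ K p.1, Bad p.1 i w})
  refine ⟨Set.range G, ?_, ?_, ?_⟩
  · refine Cardinal.mk_range_le.trans ?_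
    rw [Cardinal.mk_prod, Cardinal.lift_id, Cardinal.lift_id]
    refine (mul_le_mul' hι ((Cardinal.mk_le_aleph0 (α := ℤ)).trans hκ)).trans ?_
    rw [Cardinal.mul_eq_self hκ]
  · rintro _ ⟨p, rfl⟩
    obtain ⟨h1, h2⟩ := image_closed_null (hK p.1) (hloc p.1) (hhalf p.1)
    refine ⟨(Homeomorph.addRight (p.2 : ℝ)).isClosedMap _ h1, ?_⟩
    simp only [G]
    rw [Set.image_add_right, MeasureTheory.measure_preimage_add_right]
    exact h2
  · rw [Set.eq_univ_iff_forall]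
    intro x
    obtain ⟨w, hw⟩ := exists_bin (Int.fract x) (Int.fract_nonneg x) (Int.fract_lt_one x)
    obtain ⟨α, hα⟩ := hcon w
    refine Set.mem_sUnion.2 ⟨G (α, ⌊x⌋), ⟨_, rfl⟩, ?_⟩
    refine ⟨bin w, ⟨w, hα, rfl⟩, ?_⟩
    show bin w + (⌊x⌋ : ℝ) = x
    rw [hw]
    exact Int.fract_add_floor x

end Pool.Agent.Work.MP_e99821_lc.ME
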