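import Pool.Agent.Work.MP_e99821_lc.ME.Defs

/-!
# Module Pairs (M): good pairs in an infinite set

PROOF. Let `U` be an ultrafilter with `U ≤ cofinite ⊓ 𝓟 A`
(`Ultrafilter.of`, `Filter.cofinite_inf_principal_neBot_iff`). Let `R = {ξ | ∀ᶠ a in U, ξ ∈ F N a}`.
`R` is finite: if `s ⊆ R` has `N + 1` elements then `∀ᶠ a in U, ∀ ξ ∈ s, ξ ∈ F N a`
(`Filter.eventually_all_finset`), so some `F N a` contains `s`, against `card`.
For `ξ ∉ R` one has `∀ᶠ a in U, ξ ∉ F N a` (ultrafilter: `Ultrafilter.eventually_not`).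
Let `P a` say: `a ∈ A`, `a ∉ R`, and for all `ξ ∈ R`, `m ≤ N`: `ξ ∈ F m a ↔ ∀ᶠ x in U, ξ ∈ F m x`
(in particular `R ⊆ F N a`). `P a` holds for `U`-almost all `a` (finitely many conditions, each
holds `U`-almost surely because `U` is an ultrafilter; `R` is finite and `U ≤ cofinite`).
Let `r x y` say: `x ≠ y`, `y ∉ F N x`, `x ∉ F N y`, and `∀ ξ ∈ F N x, ξ ∈ F N y → ξ ∈ R`. It is
symmetric. For a finite set `s` of elements with `P`, `U`-almost all `y` satisfy `P y` and `r x y`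
for all `x ∈ s`: `y ≠ x` and `y ∉ F N x` exclude finitely many `y`; `x ∉ R` gives `x ∉ F N y` almost
surely; and each of the finitely many `ξ ∈ F N x`, `ξ ∉ R` is outside `F N y` almost surely.
`exists_seq_of_forall_finset_exists'` (or the version without prime and symmetry) gives `e : ℕ → Ω`
with `P (e n)` for all `n` and `r (e m) (e n)` for `m ≠ n`.
Put `a s = min (e (2 s)) (e (2 s + 1))`, `b s = max (e (2 s)) (e (2 s + 1))`. Then `ha, hb, hab, hout`
are clear; `hroot`: `ξ ∈ F N (a s) ∩ F N (b s)` gives `ξ ∈ R`, and both sides are equivalent to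
`∀ᶠ x in U, ξ ∈ F m x`. `hdisj`: let `x ∈ cs F N (a s) (b s)` and `x ∈ cs F N (a s') (b s')`, `s ≠ s'`.
If `x = a s` and `x = a s'`: the `e`'s are different. If `x = a s` and `x ∈ F N (a s')` or
`x ∈ F N (b s')`: against `r`; same with `s, s'` exchanged. Otherwise `x` is in exactly one of
`F N (a s)`, `F N (b s)`, and in one of `F N (a s')`, `F N (b s')`: so `x ∈ R` by `r`; but then `x` is
in both `F N (a s)` and `F N (b s)`, contradiction.
-/

namespace Pool.Agent.Work.MP_e99821_lc.ME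

variable {Ω : Type*} [LinearOrder Ω] {F : ℕ → Ω → Finset Ω}

theorem exists_goodPairs (hF : IsApprox F) {A : Set Ω} (hA : A.Infinite) (N : ℕ) :
    ∃ a b : ℕ → Ω, GoodPairs F A N a b := by
  classical
  haveI : (Filter.cofinite ⊓ Filter.principal A).NeBot :=
    Filter.cofinite_inf_principal_neBot_iff.2 hA
  let U : Ultrafilter Ω := Ultrafilter.of (Filter.cofinite ⊓ Filter.principal A)
  have hUc : (U : Filter Ω) ≤ Filter.cofinite := (Ultrafilter.of_le _).trans inf_le_left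
  have hUA : ∀ᶠ a in (U : Filter Ω), a ∈ A :=
    (Ultrafilter.of_le _).trans inf_le_right (Filter.mem_principal_self A)
  have hfin : ∀ s : Set Ω, s.Finite → ∀ᶠ a in (U : Filter Ω), a ∉ s :=
    fun s hs => hUc hs.compl_mem_cofinite
  let R : Set Ω := {ξ | ∀ᶠ a in (U : Filter Ω), ξ ∈ F N a}
  have hR : R.Finite := by
    by_contra hinf
    obtain ⟨s, hs, hcard⟩ := Set.Infinite.exists_subset_card_eq hinf (N + 1)
    have h1 : ∀ᶠ a in (U : Filter Ω), ∀ ξ ∈ s, ξ ∈ F N a :=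
      (Filter.eventually_all_finset s).2 (fun ξ hξ => hs hξ)
    obtain ⟨a, ha⟩ := h1.exists
    have h2 : s ⊆ F N a := ha
    have h3 := Finset.card_le_card h2
    have h4 := hF.card N a
    omega
  have hdec : ∀ m ξ, ∀ᶠ a in (U : Filter Ω),
      (ξ ∈ F m a ↔ ∀ᶠ x in (U : Filter Ω), ξ ∈ F m x) := by
    intro m ξ
    by_cases h : ∀ᶠ x in (U : Filter Ω), ξ ∈ F m x
    · filter_upwards [h] with a ha
      exact ⟨fun _ => h, fun _ => ha⟩
    · have h' := Ultrafilter.eventually_not.2 h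
      filter_upwards [h'] with a ha
      exact ⟨fun h1 => absurd h1 ha, fun h1 => absurd h1 h⟩
  let P : Ω → Prop := fun a => a ∈ A ∧ a ∉ R ∧
    ∀ ξ ∈ R, ∀ m ∈ Set.Iic N, (ξ ∈ F m a ↔ ∀ᶠ x in (U : Filter Ω), ξ ∈ F m x)
  have hP : ∀ᶠ a in (U : Filter Ω), P a := by
    refine hUA.and ((hfin R hR).and ?_)
    exact (Filter.eventually_all_finite hR).2 fun ξ _ =>
      (Filter.eventually_all_finite (Set.finite_Iic N)).2 fun m _ => hdec m ξ
  let r : Ω → Ω → Prop := fun x y =>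
    x ≠ y ∧ y ∉ F N x ∧ x ∉ F N y ∧ ∀ ξ ∈ F N x, ξ ∈ F N y → ξ ∈ R
  haveI : Std.Symm r :=
    ⟨fun x y h => ⟨h.1.symm, h.2.2.1, h.2.1, fun ξ h1 h2 => h.2.2.2 ξ h2 h1⟩⟩
  have hstep : ∀ s : Finset Ω, (∀ x ∈ s, P x) → ∃ y, P y ∧ ∀ x ∈ s, r x y := by
    intro s hs
    have h0 : ∀ᶠ y in (U : Filter Ω), P y ∧ ∀ x ∈ s, r x y := by
      refine hP.and ((Filter.eventually_all_finset s).2 fun x hx => ?_)
      have h1 := hfin {x} (Set.finite_singleton x)
      have h2 := hfin (F N x) (Finset.finite_toSet _)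
      have h3 : ∀ᶠ y in (U : Filter Ω), x ∉ F N y := Ultrafilter.eventually_not.2 (hs x hx).2.1
      have h4 : ∀ᶠ y in (U : Filter Ω), ∀ ξ ∈ F N x, (ξ ∈ F N y → ξ ∈ R) := by
        refine (Filter.eventually_all_finset _).2 fun ξ _ => ?_
        by_cases hξ : ξ ∈ R
        · exact Filter.Eventually.of_forall fun y _ => hξ
        · have h5 : ∀ᶠ y in (U : Filter Ω), ξ ∉ F N y := Ultrafilter.eventually_not.2 hξ
          filter_upwards [h5] with y hy h
          exact absurd h hy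
      filter_upwards [h1, h2, h3, h4] with y a1 a2 a3 a4
      exact ⟨fun h => a1 h.symm, a2, a3, a4⟩
    exact h0.exists
  obtain ⟨e, he, hr⟩ := exists_seq_of_forall_finset_exists' P r hstep
  have hr' : ∀ {m n : ℕ}, m ≠ n → r (e m) (e n) := fun {m n} h => hr h
  refine ⟨fun s => min (e (2 * s)) (e (2 * s + 1)), fun s => max (e (2 * s)) (e (2 * s + 1)), ?_⟩
  -- the two elements of the pair
  have hcase : ∀ s, ∃ m n : ℕ, m / 2 = s ∧ n / 2 = s ∧ m ≠ n ∧
      min (e (2 * s)) (e (2 * s + 1)) = e m ∧ max (e (2 * s)) (e (2 * s + 1)) = e n := by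
    intro s
    rcases le_total (e (2 * s)) (e (2 * s + 1)) with h | h
    · exact ⟨2 * s, 2 * s + 1, by omega, by omega, by omega, min_eq_left h, max_eq_right h⟩
    · exact ⟨2 * s + 1, 2 * s, by omega, by omega, by omega, min_eq_right h, max_eq_left h⟩
  have hlt : ∀ s, min (e (2 * s)) (e (2 * s + 1)) < max (e (2 * s)) (e (2 * s + 1)) := by
    intro s
    exact min_lt_max.2 (hr' (by omega : 2 * s ≠ 2 * s + 1)).1
  have hbig : ∀ (m : ℕ) ξ, ξ ∈ R → ξ ∈ F N (e m) := fun m ξ hξ =>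
    ((he m).2.2 ξ hξ N (Set.mem_Iic.2 le_rfl)).2 hξ
  constructor
  · intro s
    obtain ⟨m, n, hm, hn, hmn, h1, h2⟩ := hcase s
    simp only [h1]
    exact (he m).1
  · intro s
    obtain ⟨m, n, hm, hn, hmn, h1, h2⟩ := hcase s
    simp only [h2]
    exact (he n).1
  · exact hlt
  · intro s
    obtain ⟨m, n, hm, hn, hmn, h1, h2⟩ := hcase s
    simp only [h1, h2]
    exact (hr' hmn).2.2.1
  · intro s
    obtain ⟨m, n, hm, hn, hmn, h1, h2⟩ := hcase s
    simp only [h1, h2]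
    intro ξ hξ1 hξ2 k hk
    have hξ : ξ ∈ R := (hr' hmn).2.2.2 ξ hξ1 hξ2
    exact ((he m).2.2 ξ hξ k hk).trans ((he n).2.2 ξ hξ k hk).symm
  · intro s s' hss
    obtain ⟨m, n, hm, hn, hmn, h1, h2⟩ := hcase s
    obtain ⟨m', n', hm', hn', hmn', h1', h2'⟩ := hcase s'
    simp only [h1, h2, h1', h2']
    rw [Finset.disjoint_left]
    intro x hx hx'
    have hmm : m ≠ m' := by rintro rfl; omega
    have hmn2 : m ≠ n' := by rintro rfl; omega
    have hnm : n ≠ m' := by rintro rfl; omega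
    have hnn : n ≠ n' := by rintro rfl; omega
    simp only [cs, Finset.mem_insert, Finset.mem_union, Finset.mem_sdiff, Finset.mem_filter]
      at hx hx'
    have key : ∀ ξ ∈ R, ξ ∈ F N (e m) ∧ ξ ∈ F N (e n) := fun ξ hξ => ⟨hbig m ξ hξ, hbig n ξ hξ⟩
    rcases hx with rfl | ⟨h3, h4⟩ | ⟨⟨h3, -⟩, h4⟩
    · rcases hx' with h5 | ⟨h5, -⟩ | ⟨⟨h5, -⟩, -⟩
      · exact (hr' hmm).1 h5
      · exact (hr' hmm).2.2.1 h5
      · exact (hr' hmn2).2.2.1 h5
    · rcases hx' with rfl | ⟨h5, -⟩ | ⟨⟨h5, -⟩, -⟩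
      · exact (hr' hmm).2.1 h3
      · exact h4 (key x ((hr' hmm).2.2.2 x h3 h5)).2
      · exact h4 (key x ((hr' hmn2).2.2.2 x h3 h5)).2
    · rcases hx' with rfl | ⟨h5, -⟩ | ⟨⟨h5, -⟩, -⟩
      · exact (hr' hnm).2.1 h3
      · exact h4 (key x ((hr' hnm).2.2.2 x h3 h5)).1
      · exact h4 (key x ((hr' hnn).2.2.2 x h3 h5)).1

end Pool.Agent.Work.MP_e99821_lc.ME
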