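import Pool.Agent.Work.MP_e99821_lc.ME.Defs
import Pool.Agent.Work.MP_e99821_lc.ME.Pairs

/-!
# Module Gap (S-M): long gaps exist, and two easy facts about `cs` and `lab`

PROOF. `lab_le`: `card`. `card_cs_le`: `cs` is `{a}` together with a subset of `F N a` and a subset
of `F N b`. `cs_le`: members of `F N a` are `< a`.
`exists_longGap`: take the pairs of `exists_goodPairs`. Let `M = 2 ^ (2 * N + 1) ≥ 1` and let `δ` be
the maximum of `b s`, `s < M`. Every `ξ ∈ cs F N (a s) (b s)`, `s < M`, satisfies `ξ ≤ a s < b s ≤ δ`.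
For each of these finitely many `ξ` there is `n_ξ` with `ξ ∈ F n_ξ δ`, and for each `s < M` there is
`m_s` with `a s ∈ F m_s (b s)` (`union`). Let `f` be an upper bound of all these numbers, `N' ≥ f`.
`hin`: `mono`. `hinj`: let `ξ, ξ'` be two of the points, say `ξ < ξ'`; both are in `F N' δ`. By `coh`
`F N' ξ = {x ∈ F N' δ | x < ξ}` is a proper subset of `F N' ξ' = {x ∈ F N' δ | x < ξ'}` (`ξ` is in the
second and not in the first), so the cardinalities differ.
(Instead of maxima one may use `Filter.eventually_atTop`: for each of the finitely many points the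
statement holds for all large `N'`.)
-/

namespace Pool.Agent.Work.MP_e99821_lc.ME

variable {Ω : Type*} [LinearOrder Ω] {F : ℕ → Ω → Finset Ω}

theorem lab_le (hF : IsApprox F) (N : ℕ) (ξ : Ω) : lab F N ξ ≤ N := hF.card N ξ

theorem card_cs_le (hF : IsApprox F) (N : ℕ) (a b : Ω) : (cs F N a b).card ≤ 2 * N + 1 := by
  unfold cs
  have h1 := Finset.card_insert_le a ((F N a \ F N b) ∪ ((F N b).filter (fun ξ => ξ < a) \ F N a))
  have h2 := Finset.card_union_le (F N a \ F N b) ((F N b).filter (fun ξ => ξ < a) \ F N a)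
  have h3 : (F N a \ F N b).card ≤ (F N a).card := Finset.card_le_card Finset.sdiff_subset
  have h4 : ((F N b).filter (fun ξ => ξ < a) \ F N a).card ≤ (F N b).card :=
    Finset.card_le_card (Finset.sdiff_subset.trans (Finset.filter_subset _ _))
  have h5 := hF.card N a
  have h6 := hF.card N b
  omega

theorem cs_le (hF : IsApprox F) {N : ℕ} {a b ξ : Ω} (h : ξ ∈ cs F N a b) : ξ ≤ a := by
  simp only [cs, Finset.mem_insert, Finset.mem_union, Finset.mem_sdiff, Finset.mem_filter] at h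
  rcases h with rfl | ⟨h, -⟩ | ⟨⟨-, h⟩, -⟩
  · exact le_rfl
  · exact (hF.lt h).le
  · exact h.le

theorem exists_longGap (hF : IsApprox F) {A : Set Ω} (hA : A.Infinite) (N : ℕ) :
    ∃ (a b : ℕ → Ω) (f : ℕ), GoodPairs F A N a b ∧ ∀ N' ≥ f, LongGap F N a b N' := by
  classical
  obtain ⟨a, b, hp⟩ := exists_goodPairs hF hA N
  have hne : (Finset.range (2 ^ (2 * N + 1))).Nonempty := ⟨0, by simp⟩
  obtain ⟨δ, hδ⟩ : ∃ δ : Ω, ∀ s < 2 ^ (2 * N + 1), b s ≤ δ :=
    ⟨(Finset.range (2 ^ (2 * N + 1))).sup' hne b, fun s hs =>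
      Finset.le_sup' b (Finset.mem_range.2 hs)⟩
  have hlt : ∀ s < 2 ^ (2 * N + 1), ∀ ξ ∈ cs F N (a s) (b s), ξ < δ := fun s hs ξ hξ =>
    ((cs_le hF hξ).trans_lt (hp.hab s)).trans_le (hδ s hs)
  have h1 : ∀ᶠ N' in Filter.atTop, ∀ s ∈ Finset.range (2 ^ (2 * N + 1)), a s ∈ F N' (b s) := by
    refine (Filter.eventually_all_finset _).2 fun s _ => ?_
    obtain ⟨n, hn⟩ := hF.union (hp.hab s)
    filter_upwards [Filter.eventually_ge_atTop n] with m hm
    exact hF.mono _ hm hn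
  have h2 : ∀ᶠ N' in Filter.atTop, ∀ s ∈ Finset.range (2 ^ (2 * N + 1)),
      ∀ ξ ∈ cs F N (a s) (b s), ξ ∈ F N' δ := by
    refine (Filter.eventually_all_finset _).2 fun s hs =>
      (Filter.eventually_all_finset _).2 fun ξ hξ => ?_
    obtain ⟨n, hn⟩ := hF.union (hlt s (Finset.mem_range.1 hs) ξ hξ)
    filter_upwards [Filter.eventually_ge_atTop n] with m hm
    exact hF.mono _ hm hn
  obtain ⟨f, hf⟩ := Filter.eventually_atTop.1 (h1.and h2)
  refine ⟨a, b, f, hp, fun N' hN' => ⟨fun s hs => (hf N' hN').1 s (Finset.mem_range.2 hs), ?_⟩⟩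
  have hinj : ∀ ξ ∈ F N' δ, ∀ ξ' ∈ F N' δ, ξ < ξ' → lab F N' ξ < lab F N' ξ' := by
    intro ξ hξ ξ' hξ' hlt
    refine Finset.card_lt_card ((Finset.ssubset_iff_of_subset ?_).2 ⟨ξ, ?_, ?_⟩)
    · intro x hx
      have h3 := (hF.coh hξ x).1 hx
      exact (hF.coh hξ' x).2 ⟨h3.1, h3.2.trans hlt⟩
    · exact (hF.coh hξ' ξ).2 ⟨hξ, hlt⟩
    · intro h3
      exact lt_irrefl _ (hF.lt h3)
  intro s hs s' hs' ξ hξ ξ' hξ' hl
  have h3 := (hf N' hN').2 s (Finset.mem_range.2 hs) ξ hξ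
  have h4 := (hf N' hN').2 s' (Finset.mem_range.2 hs') ξ' hξ'
  rcases lt_trichotomy ξ ξ' with h | h | h
  · exact absurd hl (hinj ξ h3 ξ' h4 h).ne
  · exact h
  · exact absurd hl (hinj ξ' h4 ξ h3 h).ne'

end Pool.Agent.Work.MP_e99821_lc.ME
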