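import Pool.Agent.Work.MP_e99821_lc.ME.Defs

/-!
# Module Grow (S-M): blocks with long gaps for all functions of the family

PROOF. For `α ∈ ι` let `h_α n = n + ∑_{m ≤ n} f α m` (monotone, `≥ f α n`, `≥ n`) and
`H_α = h_α ∘ h_α` (monotone). The set of the functions `H_α` has at most `κ` elements
(`Cardinal.mk_range_le`), so by `¬ DominatingAtMost κ` there is `u : ℕ → ℕ` such that for every `α`
NOT `∀ᶠ n, u n ≤ H_α n`. Let `g n = n + 1 + ∑_{m ≤ n} u m` (strictly increasing or at least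
monotone, `g n > n`, `g n ≥ u n`) and `C 0 = 0`, `C (i + 1) = g (C i)`. `C` is strictly increasing.
Suppose that `{i | f α (C i) ≤ C (i + 1)}` is finite: there is `i₀` with `C (i + 1) < f α (C i)` for
`i ≥ i₀`. Let `n ≥ C i₀`, and `i ≥ i₀` with `C i ≤ n < C (i + 1)`. Then `u n ≤ g n ≤ g (C (i + 1)) =
C (i + 2) < f α (C (i + 1)) ≤ h_α (C (i + 1)) ≤ h_α (f α (C i)) ≤ h_α (h_α (C i)) ≤ H_α n`. So
`∀ᶠ n, u n ≤ H_α n`, a contradiction. (`C i ≤ n < C (i + 1)`: `Nat.findGreatest`, or induction on `n`.)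
-/

namespace Pool.Agent.Work.MP_e99821_lc.ME

private theorem sum_mono (f : ℕ → ℕ) {n m : ℕ} (h : n ≤ m) :
    ∑ k ∈ Finset.range (n + 1), f k ≤ ∑ k ∈ Finset.range (m + 1), f k :=
  Finset.sum_le_sum_of_subset (Finset.range_mono (by omega))

private theorem le_sum (f : ℕ → ℕ) (n : ℕ) : f n ≤ ∑ k ∈ Finset.range (n + 1), f k := by
  rw [Finset.sum_range_succ]
  exact Nat.le_add_left _ _

theorem exists_gaps {κ : Cardinal.{0}} (hD : ¬ DominatingAtMost κ) {ι : Type}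
    (hι : Cardinal.mk ι ≤ κ) (f : ι → ℕ → ℕ) :
    ∃ C : ℕ → ℕ, StrictMono C ∧ C 0 = 0 ∧ ∀ α, {i | f α (C i) ≤ C (i + 1)}.Infinite := by
  classical
  let h : ι → ℕ → ℕ := fun α n => n + ∑ m ∈ Finset.range (n + 1), f α m
  have hmono : ∀ α, Monotone (h α) := fun α n m hnm =>
    Nat.add_le_add hnm (sum_mono (f α) hnm)
  have hle : ∀ α n, f α n ≤ h α n := fun α n => (le_sum (f α) n).trans (Nat.le_add_left _ _)
  let H : ι → ℕ → ℕ := fun α n => h α (h α n)
  have hex : ∃ u : ℕ → ℕ, ∀ α, ¬ ∀ᶠ n in Filter.atTop, u n ≤ H α n := by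
    by_contra hcon
    push Not at hcon
    refine hD ⟨Set.range H, Cardinal.mk_range_le.trans hι, fun u => ?_⟩
    obtain ⟨α, hα⟩ := hcon u
    exact ⟨H α, ⟨α, rfl⟩, hα⟩
  obtain ⟨u, hu⟩ := hex
  let g : ℕ → ℕ := fun n => n + 1 + ∑ m ∈ Finset.range (n + 1), u m
  have hgmono : Monotone g := fun n m hnm =>
    Nat.add_le_add (Nat.add_le_add_right hnm 1) (sum_mono u hnm)
  have hgt : ∀ n, n < g n := fun n => by
    simp only [g]
    omega
  have hgu : ∀ n, u n ≤ g n := fun n => (le_sum u n).trans (Nat.le_add_left _ _)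
  let C : ℕ → ℕ := fun i => g^[i] 0
  have hCs : ∀ i, C (i + 1) = g (C i) := fun i => Function.iterate_succ_apply' g i 0
  have hC : StrictMono C := strictMono_nat_of_lt_succ fun i => by
    rw [hCs]
    exact hgt _
  refine ⟨C, hC, rfl, fun α hfin => hu α ?_⟩
  obtain ⟨i₀, hi₀⟩ : ∃ i₀, ∀ i ≥ i₀, C (i + 1) < f α (C i) := by
    obtain ⟨k, hk⟩ := hfin.bddAbove
    refine ⟨k + 1, fun i hi => ?_⟩
    by_contra hcon
    have h1 : i ≤ k := hk (show f α (C i) ≤ C (i + 1) from not_lt.1 hcon)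
    omega
  refine Filter.eventually_atTop.2 ⟨C i₀, fun n hn => ?_⟩
  have hi1 : C (Nat.findGreatest (fun i => C i ≤ n) n) ≤ n :=
    Nat.findGreatest_spec (P := fun i => C i ≤ n) (Nat.zero_le n) (Nat.zero_le n)
  have hi2 : i₀ ≤ Nat.findGreatest (fun i => C i ≤ n) n :=
    Nat.le_findGreatest ((hC.le_apply).trans hn) hn
  have hi3 : n < C (Nat.findGreatest (fun i => C i ≤ n) n + 1) := by
    by_contra hcon
    push Not at hcon
    have h1 := Nat.le_findGreatest (P := fun i => C i ≤ n) ((hC.le_apply).trans hcon) hcon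
    omega
  generalize Nat.findGreatest (fun i => C i ≤ n) n = i at hi1 hi2 hi3
  calc u n ≤ g n := hgu n
    _ ≤ g (C (i + 1)) := hgmono hi3.le
    _ = C (i + 1 + 1) := (hCs _).symm
    _ ≤ f α (C (i + 1)) := (hi₀ (i + 1) (by omega)).le
    _ ≤ h α (C (i + 1)) := hle _ _
    _ ≤ h α (f α (C i)) := hmono α (hi₀ i hi2).le
    _ ≤ h α (h α (C i)) := hmono α (hle _ _)
    _ ≤ h α (h α n) := hmono α (hmono α hi1)

end Pool.Agent.Work.MP_e99821_lc.ME
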