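import Pool.Agent.Work.MP_e99821_lc.ME.Defs

/-!
# Module Loc (S-M): the targets depend only on the past

PROOF. `lab F N ξ ≤ N` by `card`. `F 0 γ = ∅` by `card`, so with `C 0 = 0`: if `ξ ∈ F (C i) γ` then
`i ≠ 0`, `i = j + 1`, and `ix F C ξ γ ≤ j < i` (`Nat.sInf_le`). The position of `tf F C w γ ξ` is
`dpos C k + lab F (C (k + 1)) ξ < dpos C k + (C (k + 1) + 1) = dpos C (k + 1) ≤ dpos C i` with
`k = ix F C ξ γ < i` (`Finset.sum_range_succ`, monotone). This is `tf_congr`.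
`tgt_congr`: `ξ = a`: both `false`. `ξ ∈ F (C i) a`: `tf_congr`. Otherwise `ξ ∈ cs` gives
`ξ ∈ F (C i) b`: `tf_congr`.
`match_congr`: the positions `dpos C i + lab F (C (i + 1)) ξ` are `< dpos C (i + 1)`, and `tgt_congr`
(`dpos C i ≤ dpos C (i + 1)`).
-/

namespace Pool.Agent.Work.MP_e99821_lc.ME

variable {Ω : Type*} [LinearOrder Ω] {F : ℕ → Ω → Finset Ω} {C : ℕ → ℕ}

private theorem dpos_succ (C : ℕ → ℕ) (i : ℕ) : dpos C (i + 1) = dpos C i + (C (i + 1) + 1) := by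
  unfold dpos
  rw [Finset.sum_range_succ]

private theorem dpos_mono (C : ℕ → ℕ) : Monotone (dpos C) := by
  refine monotone_nat_of_le_succ fun i => ?_
  rw [dpos_succ]
  exact Nat.le_add_right _ _

theorem dpos_lt (hF : IsApprox F) (C : ℕ → ℕ) (i : ℕ) (ξ : Ω) :
    dpos C i + lab F (C (i + 1)) ξ < dpos C (i + 1) := by
  rw [dpos_succ]
  have h : lab F (C (i + 1)) ξ ≤ C (i + 1) := hF.card _ _
  omega

theorem tf_congr (hF : IsApprox F) (hC : StrictMono C) (hC0 : C 0 = 0) {i : ℕ} {w w' : ℕ → Bool}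
    (h : ∀ n < dpos C i, w n = w' n) {ξ γ : Ω} (hξ : ξ ∈ F (C i) γ) :
    tf F C w γ ξ = tf F C w' γ ξ := by
  have hlt : ξ < γ := hF.lt hξ
  unfold tf
  rw [if_pos hlt, if_pos hlt]
  apply h
  rcases i with _ | j
  · rw [hC0] at hξ
    have h1 : (F 0 γ).card ≤ 0 := hF.card 0 γ
    have h2 : F 0 γ = ∅ := Finset.card_eq_zero.1 (Nat.le_zero.1 h1)
    rw [h2] at hξ
    simp at hξ
  · have h1 : ix F C ξ γ ≤ j := Nat.sInf_le hξ
    have h2 := dpos_lt hF C (ix F C ξ γ) ξ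
    exact h2.trans_le (dpos_mono C (Nat.succ_le_succ h1))

theorem tgt_congr (hF : IsApprox F) (hC : StrictMono C) (hC0 : C 0 = 0) {i : ℕ}
    {w w' : ℕ → Bool} (h : ∀ n < dpos C i, w n = w' n) {a b ξ : Ω} (hξ : ξ ∈ cs F (C i) a b) :
    tgt F C w i a b ξ = tgt F C w' i a b ξ := by
  unfold tgt
  by_cases h1 : ξ = a
  · rw [if_pos h1, if_pos h1]
  · rw [if_neg h1, if_neg h1]
    by_cases h2 : ξ ∈ F (C i) a
    · rw [if_pos h2, if_pos h2]
      exact tf_congr hF hC hC0 h h2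
    · rw [if_neg h2, if_neg h2]
      simp only [cs, Finset.mem_insert, Finset.mem_union, Finset.mem_sdiff, Finset.mem_filter]
        at hξ
      rcases hξ with h3 | ⟨h3, -⟩ | ⟨⟨h3, -⟩, -⟩
      · exact absurd h3 h1
      · exact absurd h3 h2
      · exact tf_congr hF hC hC0 h h3

theorem match_congr (hF : IsApprox F) (hC : StrictMono C) (hC0 : C 0 = 0) {i : ℕ}
    {w w' : ℕ → Bool} (h : ∀ n < dpos C (i + 1), w n = w' n) (a b : Ω) :
    Match F C i w a b ↔ Match F C i w' a b := by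
  unfold Match
  refine forall_congr' fun ξ => forall_congr' fun hξ => ?_
  rw [h _ (dpos_lt hF C i ξ), tgt_congr hF hC hC0
    (fun n hn => h n (hn.trans_le (dpos_mono C (Nat.le_succ i)))) hξ]

end Pool.Agent.Work.MP_e99821_lc.ME
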