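import Pool.Agent.Work.MP_e99821_lc.ME.Defs
import Pool.Agent.Work.MP_e99821_lc.ME.Gap
import Pool.Agent.Work.MP_e99821_lc.ME.Loc
import Pool.Agent.Work.MP_e99821_lc.ME.Count

/-!
# Module Half (M): at a long gap a pair is matched with probability at least one half

PROOF of `match_half`. Use `count_avoid` with `L = C (i + 1) + 1`, `q = 2 * C i + 1`, `M = 2 ^ q`,
`S s` = image of `cs F (C i) (a s) (b s)` under `ξ ↦ ⟨lab F (C (i + 1)) ξ, _⟩` (`lab_le`), and
`τ s x = tgt F C w i (a s) (b s) ξ` for the unique `ξ ∈ cs F (C i) (a s) (b s)` with label `x`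
(`LongGap.hinj` with `s = s'`; choose it with `Classical.choose`, `false` if there is none).
`hcard`: `Finset.card_image_le`, `card_cs_le`. `hdisj`: two points with the same label are equal by
`LongGap.hinj`, and the sets `cs` are disjoint by `GoodPairs.hdisj`.
If `v` is in the set of the claim and `s < M`, there is `ξ ∈ cs F (C i) (a s) (b s)` with
`paste (dpos C i) w v (dpos C i + lab ξ) ≠ tgt F C (paste (dpos C i) w v) i (a s) (b s) ξ`. The left
side is `v ⟨lab ξ, _⟩`, the right side is `tgt F C w i (a s) (b s) ξ` by `tgt_congr` (`paste` does not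
change the values below `dpos C i`). So `v` is in the set of `count_avoid`; `Set.ncard_le_ncard`.
PROOF of `bit_half`: `paste n w v (n + p) = v ⟨p, _⟩`, then `count_bit`.
-/

namespace Pool.Agent.Work.MP_e99821_lc.ME

variable {Ω : Type*} [LinearOrder Ω] {F : ℕ → Ω → Finset Ω} {C : ℕ → ℕ}

theorem match_half (hF : IsApprox F) (hC : StrictMono C) (hC0 : C 0 = 0) (i : ℕ) {A : Set Ω}
    {a b : ℕ → Ω} (hp : GoodPairs F A (C i) a b) (hg : LongGap F (C i) a b (C (i + 1)))
    (w : ℕ → Bool) :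
    2 * Set.ncard {v : Fin (C (i + 1) + 1) → Bool |
      ∀ s < 2 ^ (2 * C i + 1), ¬ Match F C i (paste (dpos C i) w v) (a s) (b s)}
      ≤ 2 ^ (C (i + 1) + 1) := by
  classical
  let lb : Ω → Fin (C (i + 1) + 1) := fun ξ =>
    ⟨lab F (C (i + 1)) ξ, Nat.lt_succ_of_le (lab_le hF _ _)⟩
  let S : ℕ → Finset (Fin (C (i + 1) + 1)) := fun s => (cs F (C i) (a s) (b s)).image lb
  let τ : ℕ → Fin (C (i + 1) + 1) → Bool := fun s x =>
    if h : ∃ ξ ∈ cs F (C i) (a s) (b s), lb ξ = x then tgt F C w i (a s) (b s) h.choose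
    else false
  have hτ : ∀ s < 2 ^ (2 * C i + 1), ∀ ξ ∈ cs F (C i) (a s) (b s),
      τ s (lb ξ) = tgt F C w i (a s) (b s) ξ := by
    intro s hs ξ hξ
    have h : ∃ ξ' ∈ cs F (C i) (a s) (b s), lb ξ' = lb ξ := ⟨ξ, hξ, rfl⟩
    have h1 : τ s (lb ξ) = tgt F C w i (a s) (b s) h.choose := dif_pos h
    have h2 : h.choose = ξ :=
      hg.hinj s hs s hs _ h.choose_spec.1 _ hξ (Fin.mk.inj_iff.1 h.choose_spec.2)
    rw [h1, h2]
  refine le_trans (Nat.mul_le_mul_left 2 (Set.ncard_le_ncard ?_ (Set.toFinite _)))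
    (count_avoid (L := C (i + 1) + 1) (M := 2 ^ (2 * C i + 1)) (q := 2 * C i + 1) le_rfl S τ
      ?_ ?_)
  · intro v hv s hs
    have h1 := hv s hs
    simp only [Match] at h1
    push Not at h1
    obtain ⟨ξ, hξ, hne⟩ := h1
    refine ⟨lb ξ, Finset.mem_image_of_mem _ hξ, ?_⟩
    rw [hτ s hs ξ hξ]
    have hlt : lab F (C (i + 1)) ξ < C (i + 1) + 1 := Nat.lt_succ_of_le (lab_le hF _ _)
    have h2 : paste (dpos C i) w v (dpos C i + lab F (C (i + 1)) ξ) = v (lb ξ) := by
      unfold paste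
      rw [dif_pos ⟨Nat.le_add_right _ _, by omega⟩]
      congr 1
      exact Fin.ext (by simp [lb])
    have h3 : tgt F C (paste (dpos C i) w v) i (a s) (b s) ξ = tgt F C w i (a s) (b s) ξ := by
      refine tgt_congr hF hC hC0 (fun n hn => ?_) hξ
      unfold paste
      rw [dif_neg (by omega)]
    rw [h2, h3] at hne
    exact hne
  · intro s _
    exact Finset.card_image_le.trans (card_cs_le hF _ _ _)
  · intro s hs s' hs' hss
    rw [Finset.disjoint_left]
    intro x hx hx'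
    obtain ⟨ξ, hξ, h1⟩ := Finset.mem_image.1 hx
    obtain ⟨ξ', hξ', h2⟩ := Finset.mem_image.1 hx'
    have h3 : ξ = ξ' := hg.hinj s hs s' hs' _ hξ _ hξ' (Fin.mk.inj_iff.1 (h1.trans h2.symm))
    subst h3
    exact (Finset.disjoint_left.1 (hp.hdisj s s' hss)) hξ hξ'

theorem bit_half {L : ℕ} (n p : ℕ) (hp : p < L) (w : ℕ → Bool) :
    2 * Set.ncard {v : Fin L → Bool | paste n w v (n + p) = false} ≤ 2 ^ L := by
  have h : ∀ v : Fin L → Bool, paste n w v (n + p) = v ⟨p, hp⟩ := by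
    intro v
    unfold paste
    rw [dif_pos ⟨Nat.le_add_right _ _, by omega⟩]
    congr 1
    exact Fin.ext (by simp)
  simp only [h]
  exact count_bit _

end Pool.Agent.Work.MP_e99821_lc.ME
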