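import Pool.Agent.Work.MP_e99821_lc.ME.Defs
import Pool.Agent.Work.MP_e99821_lc.ME.Apx
import Pool.Agent.Work.MP_e99821_lc.ME.Gap
import Pool.Agent.Work.MP_e99821_lc.ME.Bulk
import Pool.Agent.Work.MP_e99821_lc.ME.Half
import Pool.Agent.Work.MP_e99821_lc.ME.Grow
import Pool.Agent.Work.MP_e99821_lc.ME.Esc3
import Pool.Agent.Work.MP_e99821_lc.Tree

/-!
# The theorem on a well-ordered set of type `ω₁`
-/

namespace Pool.Agent.Work.MP_e99821_lc.ME

open Ordinal Cardinal

theorem main_ME {Ω : Type} [LinearOrder Ω] [WellFoundedLT Ω]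
    (e : Set.Iio (ω_ 1 : Ordinal.{0}) ≃o Ω) (hΩ : ∀ a : Ω, (Set.Iio a).Countable)
    (hunc : ¬ (Set.univ : Set Ω).Countable) {κ : Cardinal.{0}} (hκ : ℵ₀ ≤ κ) {ι : Type}
    (hι : Cardinal.mk ι ≤ κ) (A : ι → Set Ω) (hA : ∀ i, (A i).Infinite)
    (hst : ∀ X : Set Ω, ¬ X.Countable → ∃ i, A i ⊆ X) :
    SouslinTreeExists ∨ DominatingAtMost κ ∨ CovClosedNullAtMost κ := by
  classical
  by_cases hD : DominatingAtMost κ
  · exact Or.inr (Or.inl hD)
  by_cases hE : CovClosedNullAtMost κ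
  · exact Or.inr (Or.inr hE)
  left
  obtain ⟨F, hF⟩ := exists_approx hΩ
  choose a b f hp hg using fun (α : ι) (N : ℕ) => exists_longGap hF (hA α) N
  obtain ⟨C, hC, hC0, hK⟩ := exists_gaps hD hι f
  have hprod : Cardinal.mk (ι × Bool) ≤ κ := by
    rw [Cardinal.mk_prod, Cardinal.lift_id, Cardinal.lift_id]
    refine (mul_le_mul' hι ((Cardinal.mk_le_aleph0 (α := Bool)).trans hκ)).trans ?_
    rw [Cardinal.mul_eq_self hκ]
  let K : ι × Bool → Set ℕ := fun p => {i | f p.1 (C i) ≤ C (i + 1)}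
  let Bad : ι × Bool → ℕ → (ℕ → Bool) → Prop := fun p i w =>
    if p.2 = true then
      (∀ s < 2 ^ (2 * C i + 1), ¬ Match F C i w (a p.1 (C i) s) (b p.1 (C i) s))
    else w (dpos C i + lab F (C (i + 1)) (a p.1 (C i) 0)) = false
  have hloc : ∀ p, IsLocal (fun i => C (i + 1) + 1) (Bad p) := by
    intro p i w w' h
    have h' : ∀ n < dpos C (i + 1), w n = w' n := h
    by_cases hp2 : p.2 = true
    · simp only [Bad, if_pos hp2]
      refine forall_congr' fun s => forall_congr' fun _ => not_congr ?_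
      exact match_congr hF hC hC0 h' _ _
    · simp only [Bad, if_neg hp2]
      rw [h' _ (dpos_lt hF C i _)]
  have hhalf : ∀ p, IsHalf (fun i => C (i + 1) + 1) (K p) (Bad p) := by
    intro p i hi w
    by_cases hp2 : p.2 = true
    · simp only [Bad, if_pos hp2]
      exact match_half hF hC hC0 i (hp p.1 (C i)) (hg p.1 (C i) _ hi) w
    · simp only [Bad, if_neg hp2]
      exact bit_half (dpos C i) _ (Nat.lt_succ_of_le (lab_le hF _ _)) w
  obtain ⟨w, hw⟩ := escape hκ hE hprod (fun i => C (i + 1) + 1) K Bad (fun p => hK p.1) hloc hhalf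
  refine souslin_of_hit e hΩ hunc (fun γ ξ => tf F C w γ ξ) ?_ ?_
  · intro X hX
    obtain ⟨α, hα⟩ := hst X hX
    obtain ⟨i, hi, hbad⟩ := hw (α, true)
    simp only [Bad, if_true] at hbad
    push Not at hbad
    obtain ⟨s, hs, hm⟩ := hbad
    have hP := hp α (C i)
    exact ⟨_, hα (hP.ha s), _, hα (hP.hb s), hP.hab s,
      bulk hF hC w (hP.hab s) (hP.hout s) ((hg α (C i) _ hi).hin s hs) (hP.hroot s) hm⟩
  · intro X hX
    obtain ⟨α, hα⟩ := hst X hX
    obtain ⟨i, hi, hbad⟩ := hw (α, false)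
    simp only [Bad] at hbad
    rw [if_neg (by simp)] at hbad
    have hP := hp α (C i)
    have hG := hg α (C i) _ hi
    refine ⟨_, hα (hP.ha 0), _, hα (hP.hb 0), hP.hab 0, ?_⟩
    intro hall
    have h1 := hall _ le_rfl
    have h2 : tf F C w (a α (C i) 0) (a α (C i) 0) = false := by
      simp [tf]
    rw [tf_at hF hC w (hP.hab 0) (hP.hout 0) (hG.hin 0 (by positivity)), h2] at h1
    exact hbad h1.symm

end Pool.Agent.Work.MP_e99821_lc.ME
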